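import Pool.Agent.RSA55.Defs

set_option autoImplicit false

/-!
# The partner maps of a Ruzsa-Szemerédi graph (helper55, MP_c44c3f_co)
-/

namespace Pool.Agent.RSA55

open Finset

/-- The covered sets `C i` and the partner maps `m i` of an `(r,t)`-Ruzsa–Szemerédi graph. -/
theorem base_of_rs {n : ℕ} {G : SimpleGraph (Fin n)} {r t : ℕ} (h : IsRS G r t) :
    ∃ (C : Fin t → Finset (Fin n)) (m : Fin t → Fin n → Fin n),
      (∀ i, (C i).card = 2 * r) ∧
      (∀ i, ∀ v ∈ C i, m i v ∈ C i) ∧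
      (∀ i, ∀ v ∈ C i, m i (m i v) = v) ∧
      (∀ i j, i ≠ j → ∀ v ∈ C j, ¬ (v ∈ C i ∧ m j v ∈ C i)) := by
  classical
  obtain ⟨M, hr, hd, he, hM⟩ := h
  have hnd : ∀ i, ∀ e ∈ M i, ¬ e.IsDiag := fun i e hei =>
    G.not_isDiag_of_mem_edgeSet ((he e).2 ⟨i, hei⟩)
  -- covered set
  obtain ⟨C, hC⟩ : ∃ C : Fin t → Finset (Fin n), C = fun i => (M i).biUnion Sym2.toFinset :=
    ⟨_, rfl⟩
  have hC' : ∀ i v, v ∈ C i ↔ ∃ e ∈ M i, v ∈ e := by
    intro i v
    rw [hC]
    simp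
  have hpart : ∀ i v, ∃ w, v ∈ C i → s(v, w) ∈ M i := by
    intro i v
    by_cases hv : v ∈ C i
    · obtain ⟨e, hei, hve⟩ := (hC' i v).1 hv
      obtain ⟨w, rfl⟩ := hve
      exact ⟨w, fun _ => hei⟩
    · exact ⟨v, fun h0 => absurd h0 hv⟩
  choose m hm using hpart
  -- two edges of `M i` sharing a vertex are equal
  have huniq : ∀ i, ∀ e ∈ M i, ∀ f ∈ M i, ∀ x, x ∈ e → x ∈ f → e = f := by
    intro i e h1 f h2 x h3 h4
    by_contra hne
    exact (hM i e h1 f h2 hne x h3 x h4).1 rfl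
  have hmC : ∀ i, ∀ v ∈ C i, m i v ∈ C i := fun i v hv =>
    (hC' i _).2 ⟨_, hm i v hv, Sym2.mem_mk_right _ _⟩
  refine ⟨C, m, ?_, hmC, ?_, ?_⟩
  · intro i
    have e1 : (C i).card = ∑ e ∈ M i, e.toFinset.card := by
      rw [hC]
      show ((M i).biUnion Sym2.toFinset).card = _
      refine card_biUnion fun e h1 f h2 hne => ?_
      show Disjoint e.toFinset f.toFinset
      rw [Finset.disjoint_left]
      intro x hx hx'
      rw [Sym2.mem_toFinset] at hx hx'
      exact hne (huniq i e h1 f h2 x hx hx')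
    rw [e1, sum_congr rfl fun e h1 => Sym2.card_toFinset_of_not_isDiag e (hnd i e h1), sum_const,
      hr i, smul_eq_mul, mul_comm]
  · intro i v hv
    have h1 := hm i v hv
    have h2 := hm i (m i v) (hmC i v hv)
    have h3 := huniq i _ h1 _ h2 (m i v) (Sym2.mem_mk_right _ _) (Sym2.mem_mk_left _ _)
    have h4 : m i v ≠ v := by
      intro h0
      have := hnd i _ h1
      rw [h0] at this
      exact this rfl
    rcases Sym2.eq_iff.1 h3 with ⟨e1, _⟩ | ⟨e1, _⟩
    · exact absurd e1.symm h4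
    · exact e1.symm
  · rintro i j hij v hv ⟨h1, h2⟩
    obtain ⟨e, hei, hve⟩ := (hC' i v).1 h1
    obtain ⟨f, hfi, hwf⟩ := (hC' i _).1 h2
    have hedge := hm j v hv
    have hadj : G.Adj v (m j v) := (he _).2 ⟨j, hedge⟩
    by_cases hef : e = f
    · subst hef
      have h3 : e = s(v, m j v) := by
        have hne : v ≠ m j v := hadj.ne
        exact ((Sym2.mem_and_mem_iff hne).1 ⟨hve, hwf⟩)
      rw [h3] at hei
      exact Finset.disjoint_left.1 (hd i j hij) hei hedge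
    · exact (hM i e hei f hfi hef v hve _ hwf).2 hadj

end Pool.Agent.RSA55
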