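import Pool.Agent.RSA55.Count
import Pool.Agent.RSA55.Base

set_option autoImplicit false

/-!
# The power construction (helper55, MP_c44c3f_co)
-/

namespace Pool.Agent.RSA55

open Finset

section

variable {n t : ℕ} (C : Fin t → Finset (Fin n)) (m : Fin t → Fin n → Fin n)

/-- The weight of a letter. -/
def wt (i : Fin t) (c : Fin n × Bool) : ℤ :=
  if c.1 ∈ C i then (if c.2 = true then 1 else -1) else 0

/-- The new letter. -/
def gg (i : Fin t) (c : Fin n × Bool) : Fin n × Bool := (m i c.1, true)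

theorem wt_eq_neg {i : Fin t} {c : Fin n × Bool} (h : wt C i c = -1) :
    c.1 ∈ C i ∧ c.2 = false := by
  unfold wt at h
  by_cases h1 : c.1 ∈ C i
  · rw [if_pos h1] at h
    by_cases h2 : c.2 = true
    · rw [if_pos h2] at h
      exact absurd h (by decide)
    · exact ⟨h1, by simpa using h2⟩
  · rw [if_neg h1] at h
    exact absurd h (by decide)

theorem card_pos (i : Fin t) :
    (univ.filter fun c : Fin n × Bool => wt C i c = 1).card = (C i).card := by
  classical
  have : (univ.filter fun c : Fin n × Bool => wt C i c = 1) =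
      (C i).image (fun v => (v, true)) := by
    ext ⟨v, b⟩
    simp only [mem_filter, mem_univ, true_and, mem_image, Prod.mk.injEq, wt]
    constructor
    · intro h
      by_cases h1 : v ∈ C i
      · rw [if_pos h1] at h
        by_cases h2 : b = true
        · exact ⟨v, h1, rfl, h2.symm⟩
        · rw [if_neg h2] at h
          exact absurd h (by decide)
      · rw [if_neg h1] at h
        exact absurd h (by decide)
    · rintro ⟨u, hu, rfl, rfl⟩
      rw [if_pos hu, if_pos rfl]
  rw [this, card_image_of_injective _ fun a b h => (Prod.mk.inj h).1]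

theorem card_neg (i : Fin t) :
    (univ.filter fun c : Fin n × Bool => wt C i c = -1).card = (C i).card := by
  classical
  have : (univ.filter fun c : Fin n × Bool => wt C i c = -1) =
      (C i).image (fun v => (v, false)) := by
    ext ⟨v, b⟩
    simp only [mem_filter, mem_univ, true_and, mem_image, Prod.mk.injEq]
    constructor
    · intro h
      obtain ⟨h1, h2⟩ := wt_eq_neg C h
      exact ⟨v, h1, rfl, h2.symm⟩
    · rintro ⟨u, hu, rfl, rfl⟩
      unfold wt
      rw [if_pos hu, if_neg (by simp)]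
  rw [this, card_image_of_injective _ fun a b h => (Prod.mk.inj h).1]

end

/-- The amplified bipartite system on `Ω^k`, `Ω = Fin n × Bool`. -/
theorem amp {n r t : ℕ} {G : SimpleGraph (Fin n)} (h : IsRS G r t) (hr : 0 < r) {k : ℕ}
    (hk : 0 < k) {δ : ℝ} (hδ : 0 ≤ δ) (hb : 2 * (n : ℝ) ≤ δ ^ 2 * r * k) :
    ∃ P : Fin t → Finset (Wd (Fin n × Bool) k × Wd (Fin n × Bool) k), Sys P ∧
      ∀ i, (1 - δ) * (2 * (n : ℝ)) ^ k / 3 ≤ (P i).card := by
  classical
  obtain ⟨C, m, hC, hm, hmm, hno⟩ := base_of_rs h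
  have hD : (Fintype.card (Fin n × Bool) : ℝ) = 2 * n := by
    rw [Fintype.card_prod, Fintype.card_fin, Fintype.card_bool]
    push_cast
    ring
  have hg : ∀ i c, wt C i c = -1 → wt C i (gg m i c) = 1 := by
    intro i c hc
    obtain ⟨h1, _⟩ := wt_eq_neg C hc
    show (if m i c.1 ∈ C i then (if true = true then (1 : ℤ) else -1) else 0) = 1
    rw [if_pos (hm i c.1 h1), if_pos rfl]
  have hgi : ∀ i c c', wt C i c = -1 → wt C i c' = -1 → gg m i c = gg m i c' → c = c' := by
    intro i c c' h1 h2 h3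
    obtain ⟨a1, a2⟩ := wt_eq_neg C h1
    obtain ⟨b1, b2⟩ := wt_eq_neg C h2
    have h4 : m i c.1 = m i c'.1 := (Prod.mk.inj h3).1
    have h5 : c.1 = c'.1 := by rw [← hmm i c.1 a1, h4, hmm i c'.1 b1]
    exact Prod.ext h5 (a2.trans b2.symm)
  -- the words of positive height
  obtain ⟨A, hA⟩ : ∃ A : Fin t → Finset (Wd (Fin n × Bool) k),
      A = fun i => univ.filter fun w => 1 ≤ ht (wt C i) w := ⟨_, rfl⟩
  have hA' : ∀ i w, w ∈ A i ↔ 1 ≤ ht (wt C i) w := fun i w => by rw [hA]; simp
  have hcardA : ∀ i, (1 - δ) * (2 * (n : ℝ)) ^ k ≤ (A i).card := by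
    intro i
    have h1 : Q (wt C i) k = ((univ.filter fun w : Wd (Fin n × Bool) k =>
        ht (wt C i) w = 0).card : ℝ) := by
      unfold Q
      rw [← sum_filter, sum_const, nsmul_eq_mul, mul_one]
    have h2 : ((univ.filter fun w : Wd (Fin n × Bool) k => ht (wt C i) w = 0).card : ℝ) +
        (A i).card = (2 * (n : ℝ)) ^ k := by
      have e : (A i) = univ.filter fun w : Wd (Fin n × Bool) k => ¬ ht (wt C i) w = 0 := by
        ext w
        rw [hA']
        simp only [mem_filter, mem_univ, true_and]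
        omega
      rw [e, ← hD]
      have e2 := Finset.card_filter_add_card_filter_not
        (s := (univ : Finset (Wd (Fin n × Bool) k))) (fun w => ht (wt C i) w = 0)
      rw [card_univ, card_Wd] at e2
      exact_mod_cast e2
    have h3 : ((C i).card : ℝ) ≤ n := by
      have := card_le_univ (C i)
      rw [Fintype.card_fin] at this
      exact_mod_cast this
    have h4 := Q_bound (wt C i) (C i).card (card_pos C i) (card_neg C i)
      (by rw [hD]; linarith) (by rw [hC i]; omega) hk
    rw [hD, hC i] at h4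
    push_cast at h4
    have hn : (0 : ℝ) < n := by
      have : (0 : ℝ) < (C i).card := by
        rw [hC i]
        exact_mod_cast (by omega : 0 < 2 * r)
      linarith
    have hrk : (0 : ℝ) < (r : ℝ) * k := mul_pos (Nat.cast_pos.2 hr) (Nat.cast_pos.2 hk)
    have hX : (0 : ℝ) ≤ (2 * (n : ℝ)) ^ k := by positivity
    have h5 : Q (wt C i) k ≤ δ * (2 * (n : ℝ)) ^ k := by
      refine abs_le_of_sq_le_sq' ?_ (mul_nonneg hδ hX) |>.2
      have h6 : (r : ℝ) * k * Q (wt C i) k ^ 2 ≤ r * k * (δ * (2 * (n : ℝ)) ^ k) ^ 2 := by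
        have h7 := mul_le_mul_of_nonneg_right hb (sq_nonneg ((2 * (n : ℝ)) ^ k))
        nlinarith
      exact le_of_mul_le_mul_left h6 hrk
    rw [h1] at h5
    linarith
  -- the most popular class modulo 3
  have hpig : ∀ i, ∃ ρ : ZMod 3, (1 - δ) * (2 * (n : ℝ)) ^ k / 3 ≤
      (((A i).filter fun w => ((tot (wt C i) w : ℤ) : ZMod 3) = ρ).card : ℝ) := by
    intro i
    by_contra hcon
    push Not at hcon
    have e1 : ((A i).card : ℝ) = ∑ ρ : ZMod 3,
        (((A i).filter fun w => ((tot (wt C i) w : ℤ) : ZMod 3) = ρ).card : ℝ) := by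
      have := card_eq_sum_card_fiberwise (s := A i) (t := (univ : Finset (ZMod 3)))
        (f := fun w => ((tot (wt C i) w : ℤ) : ZMod 3)) (fun _ _ => mem_coe.2 (mem_univ _))
      exact_mod_cast this
    have e2 : ∑ ρ : ZMod 3,
        (((A i).filter fun w => ((tot (wt C i) w : ℤ) : ZMod 3) = ρ).card : ℝ) <
        ∑ _ρ : ZMod 3, (1 - δ) * (2 * (n : ℝ)) ^ k / 3 :=
      sum_lt_sum_of_nonempty univ_nonempty fun ρ _ => hcon ρ
    rw [← e1, sum_const, card_univ, ZMod.card, nsmul_eq_mul] at e2
    push_cast at e2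
    have := hcardA i
    linarith
  choose ρ hρ using hpig
  obtain ⟨S, hS⟩ : ∃ S : Fin t → Finset (Wd (Fin n × Bool) k),
      S = fun i => (A i).filter fun w => ((tot (wt C i) w : ℤ) : ZMod 3) = ρ i := ⟨_, rfl⟩
  have hS' : ∀ i w, w ∈ S i ↔ 1 ≤ ht (wt C i) w ∧ ((tot (wt C i) w : ℤ) : ZMod 3) = ρ i := by
    intro i w
    rw [hS]
    show w ∈ (A i).filter _ ↔ _
    rw [mem_filter, hA']
  have hScard : ∀ i, (1 - δ) * (2 * (n : ℝ)) ^ k / 3 ≤ ((S i).card : ℝ) := by
    intro i
    rw [hS]
    exact hρ i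
  obtain ⟨P, hP⟩ : ∃ P : Fin t → Finset (Wd (Fin n × Bool) k × Wd (Fin n × Bool) k),
      P = fun i => (S i).image fun w => (fl (wt C i) (gg m i) w, w) := ⟨_, rfl⟩
  have hP' : ∀ i x y, (x, y) ∈ P i ↔ y ∈ S i ∧ fl (wt C i) (gg m i) y = x := by
    intro i x y
    rw [hP]
    show (x, y) ∈ (S i).image _ ↔ _
    rw [mem_image]
    constructor
    · rintro ⟨w, hw, hwe⟩
      obtain ⟨e1, e2⟩ := Prod.mk.inj hwe
      subst e2
      exact ⟨hw, e1⟩
    · rintro ⟨h1, h2⟩
      exact ⟨y, h1, by rw [h2]⟩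
  refine ⟨P, ?_, ?_⟩
  · intro i j x y x' y' h1 h2 h3
    rw [hP'] at h1 h2 h3
    obtain ⟨hy, hxy⟩ := h1
    obtain ⟨hy', hxy'⟩ := h2
    obtain ⟨hy'j, hxj⟩ := h3
    rw [hS'] at hy hy' hy'j
    by_cases hij : i = j
    · subst hij
      have e1 : y = y' := fl_inj (wt C i) (gg m i) (hg i) (hgi i) y y' hy.1 hy'.1
        (hxy.trans hxj.symm)
      refine ⟨rfl, ?_, e1⟩
      rw [← hxj, hxy']
    · exfalso
      obtain ⟨c, hc, hc2⟩ := tot_fl (wt C i) (gg m i) (wt C i) y hy.1
      rw [hg i c hc, hc, hxy] at hc2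
      obtain ⟨d, hd, hd2⟩ := tot_fl (wt C j) (gg m j) (wt C i) y' hy'j.1
      rw [hxj] at hd2
      obtain ⟨d1, d2⟩ := wt_eq_neg C hd
      have h5 := hno i j hij d.1 d1
      have h6 : wt C i (gg m j d) - wt C i d = 0 ∨ wt C i (gg m j d) - wt C i d = 1 := by
        unfold wt gg
        simp only [d2]
        by_cases a1 : d.1 ∈ C i
        · have a2 : m j d.1 ∉ C i := fun a2 => h5 ⟨a1, a2⟩
          rw [if_pos a1, if_neg a2]
          norm_num
        · rw [if_neg a1]
          by_cases a2 : m j d.1 ∈ C i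
          · rw [if_pos a2]
            norm_num
          · rw [if_neg a2]
            norm_num
      have h7 : tot (wt C i) y + 2 = tot (wt C i) y' + (wt C i (gg m j d) - wt C i d) := by
        rw [← hd2, hc2]
        norm_num
      have h8 := congrArg (fun z : ℤ => (z : ZMod 3)) h7
      simp only [Int.cast_add] at h8
      rw [hy.2, hy'.2] at h8
      have h9 := add_left_cancel h8
      rcases h6 with h6 | h6
      · rw [h6] at h9
        exact absurd h9 (by decide)
      · rw [h6] at h9
        exact absurd h9 (by decide)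
  · intro i
    have e : (P i).card = (S i).card := by
      rw [hP]
      exact card_image_of_injective _ fun a b hab => (Prod.mk.inj hab).2
    rw [e]
    exact hScard i

end Pool.Agent.RSA55
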