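import Pool.Agent.RSA55.Walk

set_option autoImplicit false

/-!
# Counting words by their height (helper55, MP_c44c3f_co)
-/

namespace Pool.Agent.RSA55

open Finset

variable {Ω : Type}

/-- The transfer operator: `a` letters of weight `1`, `a` letters of weight `-1`, `D` letters. -/
def T (a D : ℝ) (F : ℕ → ℝ) : ℕ → ℝ :=
  fun h => a * F (h - 1) + a * F (h + 1) + (D - 2 * a) * F h

theorem sum_step [Fintype Ω] (wt : Ω → ℤ) (a : ℕ)
    (h1 : (univ.filter fun c => wt c = 1).card = a)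
    (h2 : (univ.filter fun c => wt c = -1).card = a) (F : ℕ → ℝ) (h : ℕ) :
    ∑ c : Ω, F (if wt c = 1 then h - 1 else if wt c = -1 then h + 1 else h) =
      T a (Fintype.card Ω) F h := by
  classical
  have e : ∀ c : Ω, F (if wt c = 1 then h - 1 else if wt c = -1 then h + 1 else h) =
      F h + (if wt c = 1 then F (h - 1) - F h else 0) +
        (if wt c = -1 then F (h + 1) - F h else 0) := by
    intro c
    by_cases c1 : wt c = 1
    · have c2 : ¬ wt c = -1 := by rw [c1]; decide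
      simp only [c1, if_true]
      norm_num
    · by_cases c2 : wt c = -1
      · simp only [c2, if_true]
        norm_num
      · simp only [c1, c2, if_false]
        ring
  simp only [e, sum_add_distrib]
  rw [← sum_filter, ← sum_filter, sum_const, sum_const, sum_const, h1, h2, card_univ]
  simp only [nsmul_eq_mul, T]
  ring

theorem sum_succ [Fintype Ω] (wt : Ω → ℤ) (a : ℕ)
    (h1 : (univ.filter fun c => wt c = 1).card = a)
    (h2 : (univ.filter fun c => wt c = -1).card = a) (k : ℕ) (F : ℕ → ℝ) :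
    ∑ w : Wd Ω (k + 1), F (ht wt w) = ∑ w : Wd Ω k, T a (Fintype.card Ω) F (ht wt w) := by
  have e : ∑ w : Wd Ω (k + 1), F (ht wt w) =
      ∑ w : Wd Ω k, ∑ c : Ω, F (ht (k := k + 1) wt (w, c)) :=
    Fintype.sum_prod_type (f := fun p : Wd Ω k × Ω => F (ht (k := k + 1) wt p))
  rw [e]
  refine sum_congr rfl fun w _ => ?_
  exact sum_step wt a h1 h2 F (ht wt w)

theorem sum_iter [Fintype Ω] (wt : Ω → ℤ) (a : ℕ)
    (h1 : (univ.filter fun c => wt c = 1).card = a)
    (h2 : (univ.filter fun c => wt c = -1).card = a) (k : ℕ) :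
    ∀ F : ℕ → ℝ, ∑ w : Wd Ω k, F (ht wt w) = ((T a (Fintype.card Ω))^[k] F) 0 := by
  induction k with
  | zero =>
    intro F
    have : ∑ w : Wd Ω 0, F (ht wt w) = ∑ w : Unit, F 0 := rfl
    rw [this]
    simp
  | succ k ih =>
    intro F
    rw [sum_succ wt a h1 h2, ih, Function.iterate_succ_apply]

theorem T_anti {a D : ℝ} (ha : 0 ≤ a) (hD : 2 * a ≤ D) {F : ℕ → ℝ} (hF : Antitone F) :
    Antitone (T a D F) := by
  intro x y hxy
  unfold T
  have e1 := mul_le_mul_of_nonneg_left (hF (Nat.sub_le_sub_right hxy 1)) ha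
  have e2 := mul_le_mul_of_nonneg_left (hF (Nat.succ_le_succ hxy)) ha
  have e3 := mul_le_mul_of_nonneg_left (hF hxy) (sub_nonneg.2 hD)
  simp only [Nat.succ_eq_add_one] at e2
  linarith

theorem iter_anti {a D : ℝ} (ha : 0 ≤ a) (hD : 2 * a ≤ D) {F : ℕ → ℝ} (hF : Antitone F)
    (k : ℕ) : Antitone ((T a D)^[k] F) := by
  induction k with
  | zero => exact hF
  | succ k ih =>
    rw [Function.iterate_succ_apply']
    exact T_anti ha hD ih

/-- The number of words of length `k` and height `0`. -/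
noncomputable def Q [Fintype Ω] (wt : Ω → ℤ) (k : ℕ) : ℝ :=
  ∑ w : Wd Ω k, (if ht wt w = 0 then (1 : ℝ) else 0)

theorem Q_succ [Fintype Ω] (wt : Ω → ℤ) (a : ℕ)
    (h1 : (univ.filter fun c => wt c = 1).card = a)
    (h2 : (univ.filter fun c => wt c = -1).card = a) (hD : 2 * (a : ℝ) ≤ Fintype.card Ω)
    (k : ℕ) : Q wt (k + 1) ≤ Fintype.card Ω * Q wt k := by
  have hF : Antitone (fun h : ℕ => if h = 0 then (1 : ℝ) else 0) := by
    intro x y hxy
    show (if y = 0 then (1 : ℝ) else 0) ≤ if x = 0 then (1 : ℝ) else 0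
    by_cases hy : y = 0
    · have hx : x = 0 := by omega
      rw [if_pos hy, if_pos hx]
    · rw [if_neg hy]
      split_ifs <;> norm_num
  have ha : (0 : ℝ) ≤ a := Nat.cast_nonneg a
  have e1 := sum_iter wt a h1 h2 (k + 1) (fun h : ℕ => if h = 0 then (1 : ℝ) else 0)
  have e2 := sum_iter wt a h1 h2 k (fun h : ℕ => if h = 0 then (1 : ℝ) else 0)
  unfold Q
  rw [e1, e2, Function.iterate_succ_apply']
  have h3 := iter_anti ha hD hF k
  have h4 := h3 (Nat.zero_le 1)
  unfold T at h4 ⊢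
  simp only [Nat.zero_sub, Nat.zero_add]
  have h5 := mul_le_mul_of_nonneg_left h4 ha
  linarith

theorem card_Wd [Fintype Ω] (k : ℕ) : Fintype.card (Wd Ω k) = Fintype.card Ω ^ k := by
  induction k with
  | zero => rfl
  | succ k ih =>
    have : Fintype.card (Wd Ω (k + 1)) = Fintype.card (Wd Ω k × Ω) := rfl
    rw [this, Fintype.card_prod, ih, pow_succ]

/-- first moment -/
theorem first_moment [Fintype Ω] (wt : Ω → ℤ) (a : ℕ)
    (h1 : (univ.filter fun c => wt c = 1).card = a)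
    (h2 : (univ.filter fun c => wt c = -1).card = a) (k : ℕ) :
    ∑ w : Wd Ω (k + 1), (ht wt w : ℝ) =
      Fintype.card Ω * ∑ w : Wd Ω k, (ht wt w : ℝ) + a * Q wt k := by
  rw [sum_succ wt a h1 h2 k (fun h => (h : ℝ)), Q, mul_sum, mul_sum, ← sum_add_distrib]
  refine sum_congr rfl fun w _ => ?_
  unfold T
  rcases Nat.eq_zero_or_pos (ht wt w) with h | h
  · rw [h]
    simp
  · rw [if_neg (by omega)]
    push_cast [Nat.cast_sub h]
    ring

theorem second_moment [Fintype Ω] (wt : Ω → ℤ) (a : ℕ)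
    (h1 : (univ.filter fun c => wt c = 1).card = a)
    (h2 : (univ.filter fun c => wt c = -1).card = a) (k : ℕ) :
    ∑ w : Wd Ω (k + 1), (ht wt w : ℝ) ^ 2 ≤
      Fintype.card Ω * ∑ w : Wd Ω k, (ht wt w : ℝ) ^ 2 + 2 * a * (Fintype.card Ω : ℝ) ^ k := by
  have ha : (0 : ℝ) ≤ a := Nat.cast_nonneg a
  rw [sum_succ wt a h1 h2 k (fun h => (h : ℝ) ^ 2)]
  have e : 2 * (a : ℝ) * (Fintype.card Ω : ℝ) ^ k = ∑ _w : Wd Ω k, 2 * (a : ℝ) := by
    rw [sum_const, card_univ, card_Wd, nsmul_eq_mul]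
    push_cast
    ring
  rw [e, mul_sum, ← sum_add_distrib]
  refine sum_le_sum fun w _ => ?_
  unfold T
  rcases Nat.eq_zero_or_pos (ht wt w) with h | h
  · rw [h]
    norm_num
    linarith
  · push_cast [Nat.cast_sub h]
    nlinarith

theorem first_lower [Fintype Ω] (wt : Ω → ℤ) (a : ℕ)
    (h1 : (univ.filter fun c => wt c = 1).card = a)
    (h2 : (univ.filter fun c => wt c = -1).card = a) (hD : 2 * (a : ℝ) ≤ Fintype.card Ω)
    (k : ℕ) : a * k * Q wt k ≤ Fintype.card Ω * ∑ w : Wd Ω k, (ht wt w : ℝ) := by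
  have ha : (0 : ℝ) ≤ a := Nat.cast_nonneg a
  have hD0 : (0 : ℝ) ≤ Fintype.card Ω := Nat.cast_nonneg _
  induction k with
  | zero =>
    simp only [Nat.cast_zero, mul_zero, zero_mul]
    exact mul_nonneg hD0 (sum_nonneg fun w _ => Nat.cast_nonneg _)
  | succ k ih =>
    rw [first_moment wt a h1 h2 k]
    have h3 := Q_succ wt a h1 h2 hD k
    have h4 : a * ((k : ℝ) + 1) * Q wt (k + 1) ≤
        a * ((k : ℝ) + 1) * (Fintype.card Ω * Q wt k) :=
      mul_le_mul_of_nonneg_left h3 (by positivity)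
    have h5 := mul_le_mul_of_nonneg_left ih hD0
    push_cast
    nlinarith

theorem second_upper [Fintype Ω] (wt : Ω → ℤ) (a : ℕ)
    (h1 : (univ.filter fun c => wt c = 1).card = a)
    (h2 : (univ.filter fun c => wt c = -1).card = a)
    (k : ℕ) : Fintype.card Ω * ∑ w : Wd Ω k, (ht wt w : ℝ) ^ 2 ≤
      2 * a * k * (Fintype.card Ω : ℝ) ^ k := by
  have ha : (0 : ℝ) ≤ a := Nat.cast_nonneg a
  have hD0 : (0 : ℝ) ≤ Fintype.card Ω := Nat.cast_nonneg _
  induction k with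
  | zero =>
    have : ∑ w : Wd Ω 0, (ht wt w : ℝ) ^ 2 = 0 := by
      refine sum_eq_zero fun w _ => ?_
      simp [ht]
    rw [this]
    simp
  | succ k ih =>
    have h3 := mul_le_mul_of_nonneg_left (second_moment wt a h1 h2 k) hD0
    have h5 := mul_le_mul_of_nonneg_left ih hD0
    rw [pow_succ]
    push_cast
    nlinarith

/-- The share of words of height `0` is at most `2 / √(p k)`, `p = 2 a / D`. -/
theorem Q_bound [Fintype Ω] (wt : Ω → ℤ) (a : ℕ)
    (h1 : (univ.filter fun c => wt c = 1).card = a)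
    (h2 : (univ.filter fun c => wt c = -1).card = a) (hD : 2 * (a : ℝ) ≤ Fintype.card Ω)
    (ha0 : 0 < a) {k : ℕ} (hk : 0 < k) :
    a * k * Q wt k ^ 2 ≤ 2 * Fintype.card Ω * ((Fintype.card Ω : ℝ) ^ k) ^ 2 := by
  have ha : (0 : ℝ) < a := Nat.cast_pos.2 ha0
  have hk' : (0 : ℝ) < k := Nat.cast_pos.2 hk
  have hD0 : (0 : ℝ) < Fintype.card Ω := by linarith
  have hQ : 0 ≤ Q wt k := sum_nonneg fun w _ => by split_ifs <;> norm_num
  have e1 := first_lower wt a h1 h2 hD k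
  have e2 := second_upper wt a h1 h2 k
  have e3 : (∑ w : Wd Ω k, (ht wt w : ℝ)) ^ 2 ≤
      (Fintype.card Ω : ℝ) ^ k * ∑ w : Wd Ω k, (ht wt w : ℝ) ^ 2 := by
    have := sq_sum_le_card_mul_sum_sq (s := (univ : Finset (Wd Ω k)))
      (f := fun w => (ht wt w : ℝ))
    rw [card_univ, card_Wd] at this
    push_cast at this
    exact this
  have e4 : (a * k * Q wt k) ^ 2 ≤
      (Fintype.card Ω * ∑ w : Wd Ω k, (ht wt w : ℝ)) ^ 2 :=
    pow_le_pow_left₀ (by positivity) e1 2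
  have e5 : (Fintype.card Ω * ∑ w : Wd Ω k, (ht wt w : ℝ)) ^ 2 ≤
      (Fintype.card Ω : ℝ) * (Fintype.card Ω : ℝ) ^ k * (2 * a * k * (Fintype.card Ω : ℝ) ^ k) := by
    calc (Fintype.card Ω * ∑ w : Wd Ω k, (ht wt w : ℝ)) ^ 2
        = (Fintype.card Ω : ℝ) ^ 2 * (∑ w : Wd Ω k, (ht wt w : ℝ)) ^ 2 := by ring
      _ ≤ (Fintype.card Ω : ℝ) ^ 2 *
          ((Fintype.card Ω : ℝ) ^ k * ∑ w : Wd Ω k, (ht wt w : ℝ) ^ 2) :=
        mul_le_mul_of_nonneg_left e3 (by positivity)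
      _ = (Fintype.card Ω : ℝ) * (Fintype.card Ω : ℝ) ^ k *
          (Fintype.card Ω * ∑ w : Wd Ω k, (ht wt w : ℝ) ^ 2) := by ring
      _ ≤ _ := mul_le_mul_of_nonneg_left e2 (by positivity)
  have e6 : (a : ℝ) * k * (a * k * Q wt k ^ 2) ≤
      a * k * (2 * Fintype.card Ω * ((Fintype.card Ω : ℝ) ^ k) ^ 2) := by
    calc (a : ℝ) * k * (a * k * Q wt k ^ 2) = (a * k * Q wt k) ^ 2 := by ring
      _ ≤ _ := e4.trans e5
      _ = _ := by ring
  exact le_of_mul_le_mul_left e6 (mul_pos ha hk')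

end Pool.Agent.RSA55
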