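import Mathlib

set_option autoImplicit false

/-!
# Ruzsa-Szemerédi graphs (helper55, MP_c44c3f_co)
-/

namespace Pool.Agent.RSA55

/-- `G` is an `(r,t)`-Ruzsa–Szemerédi graph: its edge set is the disjoint union of `t` matchings,
each of size exactly `r` and each induced in `G`. -/
def IsRS {n : ℕ} (G : SimpleGraph (Fin n)) (r t : ℕ) : Prop :=
  ∃ M : Fin t → Finset (Sym2 (Fin n)),
    (∀ i, (M i).card = r) ∧
    (∀ i j, i ≠ j → Disjoint (M i) (M j)) ∧
    (∀ e, e ∈ G.edgeSet ↔ ∃ i, e ∈ M i) ∧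
    (∀ i, ∀ e ∈ M i, ∀ f ∈ M i, e ≠ f → ∀ x ∈ e, ∀ y ∈ f, x ≠ y ∧ ¬ G.Adj x y)

/-- A bipartite system: `t` sets of pairs, any pair `(x, y')` made of the left end of a pair of
`P i` and the right end of a pair of `P i` and lying in some `P j` is that pair, and `j = i`. -/
def Sys {X Y : Type} {t : ℕ} (P : Fin t → Finset (X × Y)) : Prop :=
  ∀ i j x y x' y', (x, y) ∈ P i → (x', y') ∈ P i → (x, y') ∈ P j → i = j ∧ x = x' ∧ y = y'

end Pool.Agent.RSA55
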