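import Pool.Agent.RSA55.Defs

set_option autoImplicit false

/-!
# Directed systems of pairs (helper55, MP_c44c3f_co)
-/

namespace Pool.Agent.RSA55

/-- `x` is an end of a pair of `P i`. -/
def Cov {Y : Type} {t : ℕ} (P : Fin t → Finset (Y × Y)) (i : Fin t) (x : Y) : Prop :=
  ∃ y, (x, y) ∈ P i ∨ (y, x) ∈ P i

/-- A directed system: every `P i` is a matching, and no pair of another `P j` has both ends among
the ends of the pairs of `P i`. -/
structure LSys {Y : Type} {t : ℕ} (P : Fin t → Finset (Y × Y)) : Prop where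
  cov : ∀ i j x y, (x, y) ∈ P j → Cov P i x → Cov P i y → i = j
  inj : ∀ i p q, p ∈ P i → q ∈ P i → p ≠ q → p.1 ≠ q.1 ∧ p.2 ≠ q.2 ∧ p.1 ≠ q.2
  asym : ∀ i j x y, (x, y) ∈ P i → (y, x) ∉ P j

end Pool.Agent.RSA55
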