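import Pool.Agent.RSA55.Defs

set_option autoImplicit false

/-!
# From a bipartite system to a Ruzsa-Szemerédi graph (helper55, MP_c44c3f_co)
-/

namespace Pool.Agent.RSA55

open Finset

theorem Sys.mono {X Y : Type} {t : ℕ} {P P' : Fin t → Finset (X × Y)} (h : Sys P)
    (hP : ∀ i, P' i ⊆ P i) : Sys P' :=
  fun i j x y x' y' h1 h2 h3 => h i j x y x' y' (hP i h1) (hP i h2) (hP j h3)

/-- Disjoint copies. -/
theorem Sys.copies {X Y : Type} [DecidableEq X] [DecidableEq Y] {t : ℕ}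
    {P : Fin t → Finset (X × Y)} (h : Sys P) (m : ℕ) :
    ∃ P' : Fin t → Finset ((X × Fin m) × (Y × Fin m)), Sys P' ∧
      ∀ i, (P' i).card = (P i).card * m := by
  refine ⟨fun i => (P i ×ˢ (univ : Finset (Fin m))).image
    (fun q => ((q.1.1, q.2), (q.1.2, q.2))), ?_, ?_⟩
  · intro i j x y x' y' h1 h2 h3
    simp only [mem_image, mem_product, mem_univ, and_true, Prod.mk.injEq] at h1 h2 h3
    obtain ⟨q1, hq1, hx, hy⟩ := h1
    obtain ⟨q2, hq2, hx', hy'⟩ := h2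
    obtain ⟨q3, hq3, hx3, hy3⟩ := h3
    obtain ⟨e1, e2⟩ := Prod.mk.inj (hx3.trans hx.symm)
    obtain ⟨e3, e4⟩ := Prod.mk.inj (hy3.trans hy'.symm)
    have h4 : (q1.1.1, q2.1.2) ∈ P j := by
      rw [← e1, ← e3]
      exact hq3
    obtain ⟨a1, a2, a3⟩ := h i j q1.1.1 q1.1.2 q2.1.1 q2.1.2 hq1 hq2 h4
    refine ⟨a1, ?_, ?_⟩
    · rw [← hx, ← hx', a2, ← e2, e4]
    · rw [← hy, ← hy', a3, ← e2, e4]
  · intro i
    rw [card_image_of_injective, card_product, card_univ, Fintype.card_fin]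
    intro q q' hq
    simp only [Prod.mk.injEq] at hq
    obtain ⟨⟨e1, e2⟩, e3, _⟩ := hq
    exact Prod.ext (Prod.ext e1 e3) e2

/-- A system on `X`, `Y` with all sets of size `≥ r` gives an `(r,t)`-Ruzsa–Szemerédi graph on any
`N ≥ |X| + |Y|` vertices. -/
theorem Sys.graph {X Y : Type} [Fintype X] [Fintype Y] {t : ℕ}
    {P : Fin t → Finset (X × Y)} (h : Sys P) {r N : ℕ} (hr : ∀ i, r ≤ (P i).card)
    (hN : Fintype.card X + Fintype.card Y ≤ N) :
    ∃ G : SimpleGraph (Fin N), IsRS G r t := by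
  classical
  have h1 : ∀ i, ∃ P' ⊆ P i, P'.card = r := fun i => exists_subset_card_eq (hr i)
  choose P' hP' hc using h1
  have hS : Sys P' := h.mono hP'
  have hN' : Fintype.card (X ⊕ Y) ≤ Fintype.card (Fin N) := by
    rw [Fintype.card_sum, Fintype.card_fin]
    exact hN
  obtain ⟨ι⟩ : Nonempty (X ⊕ Y ↪ Fin N) := Function.Embedding.nonempty_of_card_le hN'
  have hlr : ∀ (x : X) (y : Y), ι (Sum.inl x) ≠ ι (Sum.inr y) := fun x y hxy =>
    Sum.inl_ne_inr (ι.injective hxy)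
  obtain ⟨φ, hφ⟩ : ∃ φ : X × Y → Sym2 (Fin N), φ = fun q => s(ι (Sum.inl q.1), ι (Sum.inr q.2)) :=
    ⟨_, rfl⟩
  have hφ' : ∀ q, φ q = s(ι (Sum.inl q.1), ι (Sum.inr q.2)) := fun q => by rw [hφ]
  have hinj : Function.Injective φ := by
    intro q q' hq
    rw [hφ', hφ', Sym2.eq_iff] at hq
    rcases hq with ⟨e1, e2⟩ | ⟨e1, _⟩
    · exact Prod.ext (Sum.inl_injective (ι.injective e1)) (Sum.inr_injective (ι.injective e2))
    · exact absurd e1 (hlr _ _)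
  obtain ⟨M, hM⟩ : ∃ M : Fin t → Finset (Sym2 (Fin N)), M = fun i => (P' i).image φ := ⟨_, rfl⟩
  have hM' : ∀ i e, e ∈ M i ↔ ∃ q ∈ P' i, φ q = e := fun i e => by rw [hM]; exact mem_image
  obtain ⟨G, hG⟩ : ∃ G : SimpleGraph (Fin N), G = SimpleGraph.fromEdgeSet {e | ∃ i, e ∈ M i} :=
    ⟨_, rfl⟩
  have hadj : ∀ e, e ∈ G.edgeSet ↔ ∃ i, e ∈ M i := by
    intro e
    rw [hG, SimpleGraph.edgeSet_fromEdgeSet]
    constructor
    · rintro ⟨h1, _⟩
      exact h1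
    · rintro ⟨i, hi⟩
      refine ⟨⟨i, hi⟩, ?_⟩
      obtain ⟨q, _, rfl⟩ := (hM' i e).1 hi
      rw [hφ']
      intro hd
      exact hlr q.1 q.2 (by simpa using hd)
  -- adjacency of a left and a right vertex
  have hLR : ∀ (x : X) (y : Y), G.Adj (ι (Sum.inl x)) (ι (Sum.inr y)) → ∃ j, (x, y) ∈ P' j := by
    intro x y hxy
    obtain ⟨j, hj⟩ := (hadj s(ι (Sum.inl x), ι (Sum.inr y))).1 hxy
    obtain ⟨q, hq, hqe⟩ := (hM' j _).1 hj
    have : q = (x, y) := hinj (hqe.trans (hφ' (x, y)).symm)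
    exact ⟨j, this ▸ hq⟩
  have hend : ∀ a b, G.Adj a b → ∃ x y, (a = ι (Sum.inl x) ∧ b = ι (Sum.inr y)) ∨
      (a = ι (Sum.inr y) ∧ b = ι (Sum.inl x)) := by
    intro a b hab
    obtain ⟨j, hj⟩ := (hadj s(a, b)).1 hab
    obtain ⟨q, _, hqe⟩ := (hM' j _).1 hj
    rw [hφ', Sym2.eq_iff] at hqe
    rcases hqe with ⟨e1, e2⟩ | ⟨e1, e2⟩
    · exact ⟨q.1, q.2, Or.inl ⟨e1.symm, e2.symm⟩⟩
    · exact ⟨q.1, q.2, Or.inr ⟨e2.symm, e1.symm⟩⟩
  refine ⟨G, M, ?_, ?_, hadj, ?_⟩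
  · intro i
    rw [hM]
    show ((P' i).image φ).card = r
    rw [card_image_of_injective _ hinj, hc]
  · intro i j hij
    rw [Finset.disjoint_left]
    intro e he he'
    obtain ⟨q, hq, rfl⟩ := (hM' i e).1 he
    obtain ⟨q', hq', hqq⟩ := (hM' j _).1 he'
    have : q' = q := hinj hqq
    subst this
    exact hij (hS i j q'.1 q'.2 q'.1 q'.2 hq hq hq').1
  · intro i e he f hf hef a ha b hb
    obtain ⟨q, hq, rfl⟩ := (hM' i e).1 he
    obtain ⟨q', hq', rfl⟩ := (hM' i f).1 hf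
    have hqq : q ≠ q' := fun h0 => hef (by rw [h0])
    -- the pairs differ in both coordinates
    have hx : q.1 ≠ q'.1 := by
      intro h0
      have h5 : (q.1, q'.2) ∈ P' i := by
        rw [h0]
        exact hq'
      have := hS i i q.1 q.2 q'.1 q'.2 hq hq' h5
      exact hqq (Prod.ext this.2.1 this.2.2)
    have hy : q.2 ≠ q'.2 := by
      intro h0
      have h5 : (q.1, q'.2) ∈ P' i := by
        rw [← h0]
        exact hq
      have := hS i i q.1 q.2 q'.1 q'.2 hq hq' h5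
      exact hqq (Prod.ext this.2.1 this.2.2)
    have hno : ∀ j, (q.1, q'.2) ∉ P' j := fun j h5 => by
      have := hS i j q.1 q.2 q'.1 q'.2 hq hq' h5
      exact hx this.2.1
    have hno' : ∀ j, (q'.1, q.2) ∉ P' j := fun j h5 => by
      have := hS i j q'.1 q'.2 q.1 q.2 hq' hq h5
      exact hx this.2.1.symm
    rw [hφ', Sym2.mem_iff] at ha hb
    have hLL : ∀ x x' : X, ¬ G.Adj (ι (Sum.inl x)) (ι (Sum.inl x')) := by
      intro x x' h6
      obtain ⟨x1, y1, ⟨_, e2⟩ | ⟨e1, _⟩⟩ := hend _ _ h6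
      · exact hlr _ _ e2
      · exact hlr _ _ e1
    have hRR : ∀ y y' : Y, ¬ G.Adj (ι (Sum.inr y)) (ι (Sum.inr y')) := by
      intro y y' h6
      obtain ⟨x1, y1, ⟨e1, _⟩ | ⟨_, e2⟩⟩ := hend _ _ h6
      · exact hlr _ _ e1.symm
      · exact hlr _ _ e2.symm
    rcases ha with rfl | rfl <;> rcases hb with rfl | rfl
    · exact ⟨fun h0 => hx (Sum.inl_injective (ι.injective h0)), hLL _ _⟩
    · exact ⟨hlr _ _, fun h6 => by
        obtain ⟨j, hj⟩ := hLR _ _ h6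
        exact hno j hj⟩
    · exact ⟨(hlr _ _).symm, fun h6 => by
        obtain ⟨j, hj⟩ := hLR _ _ h6.symm
        exact hno' j hj⟩
    · exact ⟨fun h0 => hy (Sum.inr_injective (ι.injective h0)), hRR _ _⟩

end Pool.Agent.RSA55
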