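import Pool.Agent.RSA55.Amp
import Pool.Agent.RSA55.Pad

set_option autoImplicit false

/-!
# Density amplification (helper55, MP_c44c3f_co)
-/

namespace Pool.Agent.RSA55

open Finset

theorem amplify (c : ℝ) (hc : 0 < c) (c' : ℝ) (hc' : c' < 1 / 6) :
    ∃ k K : ℕ, 0 < k ∧ ∀ (n r t : ℕ) (G : SimpleGraph (Fin n)), 1 ≤ n → c * n ≤ r → IsRS G r t →
      ∀ N : ℕ, K * n ^ k ≤ N →
        ∃ (G' : SimpleGraph (Fin N)) (r' : ℕ), c' * N ≤ r' ∧ IsRS G' r' t := by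
  classical
  obtain ⟨c1, hc1⟩ : ∃ c1 : ℝ, c1 = max c' (1 / 12) := ⟨_, rfl⟩
  have h1 : c' ≤ c1 := by rw [hc1]; exact le_max_left _ _
  have h2 : (1 : ℝ) / 12 ≤ c1 := by rw [hc1]; exact le_max_right _ _
  have h3 : c1 < 1 / 6 := by rw [hc1]; exact max_lt hc' (by norm_num)
  obtain ⟨η, hη⟩ : ∃ η : ℝ, η = 1 / 6 - c1 := ⟨_, rfl⟩
  have hη0 : 0 < η := by rw [hη]; linarith
  have hη1 : η ≤ 1 / 12 := by rw [hη]; linarith
  obtain ⟨k, hk⟩ := exists_nat_gt (2 / ((3 * η) ^ 2 * c))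
  have hk0' : (0 : ℝ) < k := lt_trans (by positivity) hk
  have hk0 : 0 < k := Nat.cast_pos.1 hk0'
  obtain ⟨m0, hm0⟩ := exists_nat_gt (1 / (3 * η))
  have hm00 : (0 : ℝ) < m0 := lt_trans (by positivity) hm0
  have hm01 : 0 < m0 := Nat.cast_pos.1 hm00
  refine ⟨k, m0 * (2 * 2 ^ k), hk0, fun n r t G hn hr hG N hN => ?_⟩
  have hn' : (1 : ℝ) ≤ n := by exact_mod_cast hn
  have hr0' : (0 : ℝ) < r := lt_of_lt_of_le (by positivity) hr
  have hr0 : 0 < r := Nat.cast_pos.1 hr0'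
  have hb : 2 * (n : ℝ) ≤ (3 * η) ^ 2 * r * k := by
    have e1 : 2 ≤ (3 * η) ^ 2 * c * k := by
      have := (div_lt_iff₀ (by positivity)).1 hk
      nlinarith
    have e2 : (3 * η) ^ 2 * k * (c * n) ≤ (3 * η) ^ 2 * k * r :=
      mul_le_mul_of_nonneg_left hr (by positivity)
    nlinarith
  obtain ⟨P, hP, hPc⟩ := amp hG hr0 hk0 (δ := 3 * η) (by positivity) hb
  obtain ⟨n0, hn0⟩ : ∃ n0 : ℕ, n0 = (2 * n) ^ k := ⟨_, rfl⟩
  have hn0p : 0 < n0 := by rw [hn0]; positivity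
  have hn0R : (n0 : ℝ) = (2 * (n : ℝ)) ^ k := by rw [hn0]; push_cast; ring
  have hNn : m0 * (2 * n0) ≤ N := by
    refine le_trans (le_of_eq ?_) hN
    rw [hn0, mul_pow]
    ring
  obtain ⟨m, hm⟩ : ∃ m : ℕ, m = N / (2 * n0) := ⟨_, rfl⟩
  have hmm : m0 ≤ m := by
    rw [hm]
    exact (Nat.le_div_iff_mul_le (by omega)).2 hNn
  have hm1 : m * (2 * n0) ≤ N := by
    rw [hm]
    exact Nat.div_mul_le_self _ _
  have hm2 : N < (m + 1) * (2 * n0) := by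
    rw [hm]
    have := Nat.lt_mul_div_succ N (show 0 < 2 * n0 by omega)
    nlinarith
  obtain ⟨P', hP', hPc'⟩ := hP.copies m
  obtain ⟨r', hr'⟩ : ∃ r' : ℕ, r' = ⌈(1 - 3 * η) * (n0 : ℝ) / 3 * m⌉₊ := ⟨_, rfl⟩
  have hcard : ∀ i, r' ≤ (P' i).card := by
    intro i
    rw [hr', Nat.ceil_le, hPc' i]
    push_cast
    have := hPc i
    rw [← hn0R] at this
    exact mul_le_mul_of_nonneg_right this (Nat.cast_nonneg m)
  have hX : Fintype.card (Wd (Fin n × Bool) k × Fin m) +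
      Fintype.card (Wd (Fin n × Bool) k × Fin m) ≤ N := by
    rw [Fintype.card_prod, card_Wd, Fintype.card_prod, Fintype.card_fin, Fintype.card_fin,
      Fintype.card_bool]
    have e : (n * 2) ^ k = n0 := by rw [hn0, mul_comm]
    rw [e]
    nlinarith
  obtain ⟨G', hG'⟩ := hP'.graph hcard hX
  refine ⟨G', r', ?_, hG'⟩
  have e1 : (N : ℝ) ≤ (m + 1) * (2 * n0) := by exact_mod_cast hm2.le
  have e2 : (1 - 3 * η) * (n0 : ℝ) / 3 * m ≤ r' := by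
    rw [hr']
    exact Nat.le_ceil _
  have hmR : 1 / (3 * η) ≤ (m : ℝ) := hm0.le.trans (by exact_mod_cast hmm)
  have e3 : 1 ≤ 3 * η * m := by
    have := (div_le_iff₀ (show (0 : ℝ) < 3 * η by positivity)).1 hmR
    linarith
  have hn0pR : (0 : ℝ) < n0 := by exact_mod_cast hn0p
  have e4 : c1 * N ≤ c1 * ((m + 1) * (2 * n0)) :=
    mul_le_mul_of_nonneg_left e1 (by linarith)
  have e5 : c1 * ((m + 1) * (2 * n0)) ≤ (1 - 3 * η) * (n0 : ℝ) / 3 * m := by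
    have e6 : c1 = 1 / 6 - η := by rw [hη]; ring
    have e7 : 6 * c1 * (m + 1) ≤ (1 - 3 * η) * m := by
      rw [e6]
      nlinarith
    have e8 := mul_le_mul_of_nonneg_right e7 hn0pR.le
    nlinarith
  have e9 : c' * N ≤ c1 * N := mul_le_mul_of_nonneg_right h1 (Nat.cast_nonneg N)
  linarith

/-- The statement of Q1 with the constant `c`. -/
def HoldsFor (c : ℝ) : Prop :=
  ∃ ε : ℝ, 0 < ε ∧ ∃ N : ℕ, ∀ n : ℕ, N ≤ n →
    ∃ (G : SimpleGraph (Fin n)) (r t : ℕ), (n : ℝ) ^ ε ≤ t ∧ c * n ≤ r ∧ IsRS G r t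

theorem holdsFor_of {c : ℝ} (hc : 0 < c) (h : HoldsFor c) {c' : ℝ} (hc' : c' < 1 / 6) :
    HoldsFor c' := by
  obtain ⟨ε, hε, N0, hN0⟩ := h
  obtain ⟨k, K, hk, hA⟩ := amplify c hc c' hc'
  have hkR : (0 : ℝ) < k := Nat.cast_pos.2 hk
  refine ⟨ε / (4 * k), by positivity, K ^ 2 + 2 ^ (4 * k) + N0 ^ (4 * k), fun N hN => ?_⟩
  obtain ⟨u, hu⟩ : ∃ u : ℝ, u = (N : ℝ) ^ (1 / (4 * (k : ℝ))) := ⟨_, rfl⟩
  have hu0 : 0 ≤ u := by rw [hu]; positivity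
  have huN : u ^ (4 * k) = N := by
    rw [hu, ← Real.rpow_natCast, ← Real.rpow_mul (Nat.cast_nonneg N)]
    push_cast
    rw [one_div_mul_cancel (by positivity), Real.rpow_one]
  have h4k : 4 * k ≠ 0 := by omega
  have hN1 : K ^ 2 ≤ N := le_trans (le_trans (Nat.le_add_right _ _) (Nat.le_add_right _ _)) hN
  have hN2 : 2 ^ (4 * k) ≤ N :=
    le_trans (le_trans (Nat.le_add_left _ _) (Nat.le_add_right _ _)) hN
  have hN3 : N0 ^ (4 * k) ≤ N := le_trans (Nat.le_add_left _ _) hN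
  have hu2 : 2 ≤ u := by
    have e : (2 : ℝ) ^ (4 * k) ≤ u ^ (4 * k) := by
      rw [huN]
      exact_mod_cast hN2
    exact (pow_le_pow_iff_left₀ (by norm_num) hu0 h4k).1 e
  have huN0 : (N0 : ℝ) ≤ u := by
    have e : (N0 : ℝ) ^ (4 * k) ≤ u ^ (4 * k) := by
      rw [huN]
      exact_mod_cast hN3
    exact (pow_le_pow_iff_left₀ (Nat.cast_nonneg _) hu0 h4k).1 e
  obtain ⟨n, hn⟩ : ∃ n : ℕ, n = ⌊u ^ 2⌋₊ := ⟨_, rfl⟩
  have hn1 : (n : ℝ) ≤ u ^ 2 := by rw [hn]; exact Nat.floor_le (by positivity)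
  have hn2 : u ^ 2 < n + 1 := by rw [hn]; exact Nat.lt_floor_add_one _
  have hnu : u ≤ n := by nlinarith
  have hn0 : N0 ≤ n := by
    have : (N0 : ℝ) ≤ n := huN0.trans hnu
    exact_mod_cast this
  have hn3 : 1 ≤ n := by
    have : (1 : ℝ) ≤ n := by linarith
    exact_mod_cast this
  obtain ⟨G, r, t, ht, hr, hG⟩ := hN0 n hn0
  have hKN : K * n ^ k ≤ N := by
    have e1 : (n : ℝ) ^ k ≤ u ^ (2 * k) := by
      rw [pow_mul]
      exact pow_le_pow_left₀ (Nat.cast_nonneg _) hn1 k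
    have e2 : ((K : ℝ) * n ^ k) ^ 2 ≤ (N : ℝ) ^ 2 := by
      have e3 : ((n : ℝ) ^ k) ^ 2 ≤ N := by
        rw [← huN, show 4 * k = 2 * k * 2 by ring, pow_mul u (2 * k) 2]
        exact pow_le_pow_left₀ (by positivity) e1 2
      have e4 : (K : ℝ) ^ 2 ≤ N := by
        exact_mod_cast hN1
      calc ((K : ℝ) * n ^ k) ^ 2 = (K : ℝ) ^ 2 * ((n : ℝ) ^ k) ^ 2 := by ring
        _ ≤ (N : ℝ) * N := mul_le_mul e4 e3 (by positivity) (Nat.cast_nonneg N)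
        _ = (N : ℝ) ^ 2 := by ring
    have e5 : (K : ℝ) * n ^ k ≤ N :=
      (pow_le_pow_iff_left₀ (by positivity) (Nat.cast_nonneg N) two_ne_zero).1 e2
    exact_mod_cast e5
  obtain ⟨G', r', hr', hG'⟩ := hA n r t G hn3 hr hG N hKN
  refine ⟨G', r', t, ?_, hr', hG'⟩
  have e1 : (N : ℝ) ^ (ε / (4 * k)) = u ^ ε := by
    rw [hu, ← Real.rpow_mul (Nat.cast_nonneg N)]
    congr 1
    field_simp
  rw [e1]
  exact (Real.rpow_le_rpow hu0 hnu hε.le).trans ht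

end Pool.Agent.RSA55
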