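import Pool.Agent.RSA55.Amp
import Pool.Agent.RSA55.Pad

set_option autoImplicit false

/-!
# The power construction with levels: density up to 1/5 (helper18, MP_c44c3f_co)
-/

namespace Pool.Agent.RSA55

open Finset

section

variable {Ω : Type} {k q : ℕ}

/-- An upward pair: `x` (on the even level `2 x.1`) is the lower end, `y` lies on the next level. -/
def Up (wt : Ω → ℤ) (g : Ω → Ω) (x y : Fin (5 * q) × Wd Ω k) : Prop :=
  y.1 = x.1 ∧ 1 ≤ ht wt x.2 ∧ ((tot wt x.2 : ℤ) : ZMod 5) = ((x.1 : ℕ) : ZMod 5) ∧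
    y.2 = fl wt g x.2

/-- A downward pair: `y` (on the odd level `2 y.1 + 1`) is the lower end, `x` lies on the next
level. -/
def Dn (wt : Ω → ℤ) (g : Ω → Ω) (x y : Fin (5 * q) × Wd Ω k) : Prop :=
  (x.1 : ℕ) = (y.1 : ℕ) + 1 ∧ 1 ≤ ht wt y.2 ∧
    ((tot wt y.2 : ℤ) : ZMod 5) = ((y.1 : ℕ) : ZMod 5) + 3 ∧ x.2 = fl wt g y.2

theorem tot_fl_self (wt : Ω → ℤ) (g : Ω → Ω) (hg : ∀ c, wt c = -1 → wt (g c) = 1)
    (w : Wd Ω k) (hw : 1 ≤ ht wt w) : tot wt (fl wt g w) = tot wt w + 2 := by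
  obtain ⟨c, h1, h2⟩ := tot_fl wt g wt w hw
  rw [h2, hg c h1, h1]
  norm_num

theorem Up.right {wt : Ω → ℤ} {g : Ω → Ω} (hg : ∀ c, wt c = -1 → wt (g c) = 1)
    {x y : Fin (5 * q) × Wd Ω k} (h : Up wt g x y) :
    ((tot wt y.2 : ℤ) : ZMod 5) = ((y.1 : ℕ) : ZMod 5) + 2 := by
  obtain ⟨h1, h2, h3, h4⟩ := h
  rw [h4, tot_fl_self wt g hg x.2 h2, h1]
  push_cast
  rw [h3]

theorem Dn.left {wt : Ω → ℤ} {g : Ω → Ω} (hg : ∀ c, wt c = -1 → wt (g c) = 1)
    {x y : Fin (5 * q) × Wd Ω k} (h : Dn wt g x y) :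
    ((tot wt x.2 : ℤ) : ZMod 5) = ((x.1 : ℕ) : ZMod 5) + 4 := by
  obtain ⟨h1, h2, h3, h4⟩ := h
  rw [h4, tot_fl_self wt g hg y.2 h2, h1]
  push_cast
  rw [h3]
  ring

theorem sys_lev {t : ℕ} (W : Fin t → Ω → ℤ) (g : Fin t → Ω → Ω)
    (hg : ∀ i c, W i c = -1 → W i (g i c) = 1)
    (hgi : ∀ i c c', W i c = -1 → W i c' = -1 → g i c = g i c' → c = c')
    (hno : ∀ i j, i ≠ j → ∀ c, W j c = -1 → W i (g j c) - W i c = 0 ∨ W i (g j c) - W i c = 1)
    (P : Fin t → Finset ((Fin (5 * q) × Wd Ω k) × (Fin (5 * q) × Wd Ω k)))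
    (hP : ∀ i x y, (x, y) ∈ P i → Up (W i) (g i) x y ∨ Dn (W i) (g i) x y) : Sys P := by
  intro i j x y x' y' h1 h2 h3
  have a1 := hP _ _ _ h1
  have a2 := hP _ _ _ h2
  have a3 := hP _ _ _ h3
  by_cases hij : i = j
  · subst hij
    refine ⟨rfl, ?_⟩
    rcases a3 with a3 | a3
    · -- an upward pair
      have b1 : Up (W i) (g i) x y := by
        rcases a1 with a1 | a1
        · exact a1
        · exfalso
          have e1 := a1.left (hg i)
          rw [a3.2.2.1] at e1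
          exact absurd e1 ((by decide : ∀ a : ZMod 5, ¬ (a = a + 4)) _)
      have b2 : Up (W i) (g i) x' y' := by
        rcases a2 with a2 | a2
        · exact a2
        · exfalso
          have e1 := a3.right (hg i)
          rw [a2.2.2.1] at e1
          exact absurd e1 ((by decide : ∀ a : ZMod 5, ¬ (a + 3 = a + 2)) _)
      have c1 : x'.1 = x.1 := b2.1.symm.trans a3.1
      have c2 : x'.2 = x.2 := fl_inj (W i) (g i) (hg i) (hgi i) _ _ b2.2.1 a3.2.1
        (b2.2.2.2.symm.trans a3.2.2.2)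
      exact ⟨(Prod.ext c1 c2).symm, Prod.ext (b1.1.trans a3.1.symm)
        (b1.2.2.2.trans a3.2.2.2.symm)⟩
    · have b2 : Dn (W i) (g i) x' y' := by
        rcases a2 with a2 | a2
        · exfalso
          have e1 := a2.right (hg i)
          rw [a3.2.2.1] at e1
          exact absurd e1 ((by decide : ∀ a : ZMod 5, ¬ (a + 3 = a + 2)) _)
        · exact a2
      have b1 : Dn (W i) (g i) x y := by
        rcases a1 with a1 | a1
        · exfalso
          have e1 := a3.left (hg i)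
          rw [a1.2.2.1] at e1
          exact absurd e1 ((by decide : ∀ a : ZMod 5, ¬ (a = a + 4)) _)
        · exact a1
      have c1 : x.1 = x'.1 := Fin.ext (a3.1.trans b2.1.symm)
      have c2 : x.2 = x'.2 := a3.2.2.2.trans b2.2.2.2.symm
      have d1 : y.1 = y'.1 := Fin.ext (by
        have u1 := b1.1
        have u2 := a3.1
        omega)
      have d2 : y.2 = y'.2 := fl_inj (W i) (g i) (hg i) (hgi i) _ _ b1.2.1 a3.2.1
        (b1.2.2.2.symm.trans a3.2.2.2)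
      exact ⟨Prod.ext c1 c2, Prod.ext d1 d2⟩
  · exfalso
    have hX : ((tot (W i) x.2 : ℤ) : ZMod 5) = ((x.1 : ℕ) : ZMod 5) ∨
        ((tot (W i) x.2 : ℤ) : ZMod 5) = ((x.1 : ℕ) : ZMod 5) + 4 := by
      rcases a1 with a1 | a1
      · exact Or.inl a1.2.2.1
      · exact Or.inr (a1.left (hg i))
    have hY : ((tot (W i) y'.2 : ℤ) : ZMod 5) = ((y'.1 : ℕ) : ZMod 5) + 2 ∨
        ((tot (W i) y'.2 : ℤ) : ZMod 5) = ((y'.1 : ℕ) : ZMod 5) + 3 := by
      rcases a2 with a2 | a2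
      · exact Or.inl (a2.right (hg i))
      · exact Or.inr a2.2.2.1
    rcases a3 with a3 | a3
    · obtain ⟨c, hc, hc2⟩ := tot_fl (W j) (g j) (W i) x.2 a3.2.1
      rw [← a3.2.2.2] at hc2
      have e1 := congrArg (fun z : ℤ => (z : ZMod 5)) hc2
      have e2 : ((y'.1 : ℕ) : ZMod 5) = ((x.1 : ℕ) : ZMod 5) := by rw [a3.1]
      rcases hno i j hij c hc with h6 | h6
      · rw [h6] at e1
        push_cast at e1
        rcases hX with hX | hX <;> rcases hY with hY | hY <;> rw [hX, hY, e2] at e1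
        · exact absurd e1 ((by decide : ∀ a : ZMod 5, ¬ (a + 2 = a + 0)) _)
        · exact absurd e1 ((by decide : ∀ a : ZMod 5, ¬ (a + 3 = a + 0)) _)
        · exact absurd e1 ((by decide : ∀ a : ZMod 5, ¬ (a + 2 = a + 4 + 0)) _)
        · exact absurd e1 ((by decide : ∀ a : ZMod 5, ¬ (a + 3 = a + 4 + 0)) _)
      · rw [h6] at e1
        push_cast at e1
        rcases hX with hX | hX <;> rcases hY with hY | hY <;> rw [hX, hY, e2] at e1
        · exact absurd e1 ((by decide : ∀ a : ZMod 5, ¬ (a + 2 = a + 1)) _)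
        · exact absurd e1 ((by decide : ∀ a : ZMod 5, ¬ (a + 3 = a + 1)) _)
        · exact absurd e1 ((by decide : ∀ a : ZMod 5, ¬ (a + 2 = a + 4 + 1)) _)
        · exact absurd e1 ((by decide : ∀ a : ZMod 5, ¬ (a + 3 = a + 4 + 1)) _)
    · obtain ⟨c, hc, hc2⟩ := tot_fl (W j) (g j) (W i) y'.2 a3.2.1
      rw [← a3.2.2.2] at hc2
      have e1 := congrArg (fun z : ℤ => (z : ZMod 5)) hc2
      have e2 : ((x.1 : ℕ) : ZMod 5) = ((y'.1 : ℕ) : ZMod 5) + 1 := by
        rw [a3.1]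
        push_cast
        rfl
      rcases hno i j hij c hc with h6 | h6
      · rw [h6] at e1
        push_cast at e1
        rcases hX with hX | hX <;> rcases hY with hY | hY <;> rw [hX, hY, e2] at e1
        · exact absurd e1 ((by decide : ∀ a : ZMod 5, ¬ (a + 1 = a + 2 + 0)) _)
        · exact absurd e1 ((by decide : ∀ a : ZMod 5, ¬ (a + 1 = a + 3 + 0)) _)
        · exact absurd e1 ((by decide : ∀ a : ZMod 5, ¬ (a + 1 + 4 = a + 2 + 0)) _)
        · exact absurd e1 ((by decide : ∀ a : ZMod 5, ¬ (a + 1 + 4 = a + 3 + 0)) _)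
      · rw [h6] at e1
        push_cast at e1
        rcases hX with hX | hX <;> rcases hY with hY | hY <;> rw [hX, hY, e2] at e1
        · exact absurd e1 ((by decide : ∀ a : ZMod 5, ¬ (a + 1 = a + 2 + 1)) _)
        · exact absurd e1 ((by decide : ∀ a : ZMod 5, ¬ (a + 1 = a + 3 + 1)) _)
        · exact absurd e1 ((by decide : ∀ a : ZMod 5, ¬ (a + 1 + 4 = a + 2 + 1)) _)
        · exact absurd e1 ((by decide : ∀ a : ZMod 5, ¬ (a + 1 + 4 = a + 3 + 1)) _)

theorem val_lt5 (a : ZMod 5) : a.val < 5 := ZMod.val_lt a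

/-- The two families of pairs built from a set `A` of words. -/
theorem lev_card (wt : Ω → ℤ) (g : Ω → Ω) (A : Finset (Wd Ω k))
    (hA : ∀ w ∈ A, 1 ≤ ht wt w) (hq : 0 < q) :
    ∃ P : Finset ((Fin (5 * q) × Wd Ω k) × (Fin (5 * q) × Wd Ω k)),
      (∀ x y, (x, y) ∈ P → Up wt g x y ∨ Dn wt g x y) ∧ P.card = (2 * q - 1) * A.card := by
  classical
  obtain ⟨a, ha⟩ : ∃ a : Wd Ω k → ℕ, a = fun w => ((tot wt w : ℤ) : ZMod 5).val := ⟨_, rfl⟩
  obtain ⟨b, hb⟩ : ∃ b : Wd Ω k → ℕ, b = fun w => (((tot wt w : ℤ) : ZMod 5) + 2).val := ⟨_, rfl⟩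
  have ha5 : ∀ w, a w < 5 := fun w => by rw [ha]; exact val_lt5 _
  have hb5 : ∀ w, b w < 5 := fun w => by rw [hb]; exact val_lt5 _
  have haz : ∀ w, ((a w : ℕ) : ZMod 5) = ((tot wt w : ℤ) : ZMod 5) := fun w => by
    rw [ha]; exact ZMod.natCast_zmod_val _
  have hbz : ∀ w, ((b w : ℕ) : ZMod 5) = ((tot wt w : ℤ) : ZMod 5) + 2 := fun w => by
    rw [hb]; exact ZMod.natCast_zmod_val _
  obtain ⟨u, hu⟩ : ∃ u : Wd Ω k × Fin q → (Fin (5 * q) × Wd Ω k) × (Fin (5 * q) × Wd Ω k),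
      u = fun p => ((⟨5 * p.2.val + a p.1, by have := ha5 p.1; have := p.2.2; omega⟩, p.1),
        (⟨5 * p.2.val + a p.1, by have := ha5 p.1; have := p.2.2; omega⟩, fl wt g p.1)) :=
    ⟨_, rfl⟩
  obtain ⟨d, hd⟩ : ∃ d : Wd Ω k × Fin (q - 1) → (Fin (5 * q) × Wd Ω k) × (Fin (5 * q) × Wd Ω k),
      d = fun p => ((⟨5 * p.2.val + b p.1 + 1, by have := hb5 p.1; have := p.2.2; omega⟩,
        fl wt g p.1),
        (⟨5 * p.2.val + b p.1, by have := hb5 p.1; have := p.2.2; omega⟩, p.1)) :=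
    ⟨_, rfl⟩
  have hui : Function.Injective u := by
    rintro ⟨w, c⟩ ⟨w', c'⟩ he
    rw [hu] at he
    obtain ⟨e1, e2⟩ := Prod.mk.inj he
    obtain ⟨e3, e4⟩ := Prod.mk.inj e1
    have e4' : w = w' := e4
    subst e4'
    have e5 : 5 * c.val + a w = 5 * c'.val + a w := congrArg Fin.val e3
    have e6 : c = c' := Fin.ext (by omega)
    rw [e6]
  have hdi : Function.Injective d := by
    rintro ⟨w, c⟩ ⟨w', c'⟩ he
    rw [hd] at he
    obtain ⟨e1, e2⟩ := Prod.mk.inj he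
    obtain ⟨e3, e4⟩ := Prod.mk.inj e2
    have e4' : w = w' := e4
    subst e4'
    have e5 : 5 * c.val + b w = 5 * c'.val + b w := congrArg Fin.val e3
    have e6 : c = c' := Fin.ext (by omega)
    rw [e6]
  refine ⟨(A ×ˢ (univ : Finset (Fin q))).image u ∪ (A ×ˢ (univ : Finset (Fin (q - 1)))).image d,
    ?_, ?_⟩
  · intro x y hxy
    rw [mem_union, mem_image, mem_image] at hxy
    rcases hxy with ⟨p, hp, he⟩ | ⟨p, hp, he⟩
    · left
      rw [mem_product] at hp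
      rw [hu] at he
      obtain ⟨e1, e2⟩ := Prod.mk.inj he
      rw [← e1, ← e2]
      refine ⟨rfl, hA _ hp.1, ?_, rfl⟩
      show ((tot wt p.1 : ℤ) : ZMod 5) = ((5 * p.2.val + a p.1 : ℕ) : ZMod 5)
      push_cast
      rw [haz, show (5 : ZMod 5) = 0 from rfl]
      ring
    · right
      rw [mem_product] at hp
      rw [hd] at he
      obtain ⟨e1, e2⟩ := Prod.mk.inj he
      rw [← e1, ← e2]
      refine ⟨rfl, hA _ hp.1, ?_, rfl⟩
      show ((tot wt p.1 : ℤ) : ZMod 5) = ((5 * p.2.val + b p.1 : ℕ) : ZMod 5) + 3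
      push_cast
      rw [hbz, show (5 : ZMod 5) = 0 from rfl, zero_mul, zero_add, add_assoc,
        show (2 : ZMod 5) + 3 = 0 from rfl, add_zero]
  · rw [card_union_of_disjoint, card_image_of_injective _ hui, card_image_of_injective _ hdi,
      card_product, card_product, card_univ, card_univ, Fintype.card_fin, Fintype.card_fin]
    · have : 2 * q - 1 = q + (q - 1) := by omega
      rw [this]
      ring
    · rw [Finset.disjoint_left]
      intro z h1 h2
      rw [mem_image] at h1 h2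
      obtain ⟨p, _, rfl⟩ := h1
      obtain ⟨p', _, he⟩ := h2
      rw [hu, hd] at he
      obtain ⟨e1, e2⟩ := Prod.mk.inj he
      have e3 := Fin.mk.inj (Prod.mk.inj e1).1
      have e4 := Fin.mk.inj (Prod.mk.inj e2).1
      omega

end

/-- The words of positive height are almost all the words. -/
theorem card_high {n r t : ℕ} (C : Fin t → Finset (Fin n)) (hC : ∀ i, (C i).card = 2 * r)
    (hr : 0 < r) {k : ℕ} (hk : 0 < k) {δ : ℝ} (hδ : 0 ≤ δ)
    (hb : 2 * (n : ℝ) ≤ δ ^ 2 * r * k) (i : Fin t) :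
    (1 - δ) * (2 * (n : ℝ)) ^ k ≤
      ((univ.filter fun w : Wd (Fin n × Bool) k => 1 ≤ ht (wt C i) w).card : ℝ) := by
  classical
  have hD : (Fintype.card (Fin n × Bool) : ℝ) = 2 * n := by
    rw [Fintype.card_prod, Fintype.card_fin, Fintype.card_bool]
    push_cast
    ring
  have h1 : Q (wt C i) k = ((univ.filter fun w : Wd (Fin n × Bool) k =>
      ht (wt C i) w = 0).card : ℝ) := by
    unfold Q
    rw [← sum_filter, sum_const, nsmul_eq_mul, mul_one]
  have h2 : ((univ.filter fun w : Wd (Fin n × Bool) k => ht (wt C i) w = 0).card : ℝ) +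
      ((univ.filter fun w : Wd (Fin n × Bool) k => 1 ≤ ht (wt C i) w).card : ℝ) =
      (2 * (n : ℝ)) ^ k := by
    have e : (univ.filter fun w : Wd (Fin n × Bool) k => 1 ≤ ht (wt C i) w) =
        univ.filter fun w : Wd (Fin n × Bool) k => ¬ ht (wt C i) w = 0 := by
      ext w
      simp only [mem_filter, mem_univ, true_and]
      omega
    rw [e, ← hD]
    have e2 := Finset.card_filter_add_card_filter_not
      (s := (univ : Finset (Wd (Fin n × Bool) k))) (fun w => ht (wt C i) w = 0)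
    rw [card_univ, card_Wd] at e2
    exact_mod_cast e2
  have h3 : ((C i).card : ℝ) ≤ n := by
    have := card_le_univ (C i)
    rw [Fintype.card_fin] at this
    exact_mod_cast this
  have h4 := Q_bound (wt C i) (C i).card (card_pos C i) (card_neg C i)
    (by rw [hD]; linarith) (by rw [hC i]; omega) hk
  rw [hD, hC i] at h4
  push_cast at h4
  have hrk : (0 : ℝ) < (r : ℝ) * k := mul_pos (Nat.cast_pos.2 hr) (Nat.cast_pos.2 hk)
  have hX : (0 : ℝ) ≤ (2 * (n : ℝ)) ^ k := by positivity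
  have h5 : Q (wt C i) k ≤ δ * (2 * (n : ℝ)) ^ k := by
    refine abs_le_of_sq_le_sq' ?_ (mul_nonneg hδ hX) |>.2
    have h6 : (r : ℝ) * k * Q (wt C i) k ^ 2 ≤ r * k * (δ * (2 * (n : ℝ)) ^ k) ^ 2 := by
      have h7 := mul_le_mul_of_nonneg_right hb (sq_nonneg ((2 * (n : ℝ)) ^ k))
      nlinarith
    exact le_of_mul_le_mul_left h6 hrk
  rw [h1] at h5
  linarith

/-- The amplified bipartite system with `10 q` levels. -/
theorem amp5 {n r t : ℕ} {G : SimpleGraph (Fin n)} (h : IsRS G r t) (hr : 0 < r) {k : ℕ}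
    (hk : 0 < k) {δ : ℝ} (hδ : 0 ≤ δ) (hb : 2 * (n : ℝ) ≤ δ ^ 2 * r * k) {q : ℕ} (hq : 0 < q) :
    ∃ P : Fin t → Finset ((Fin (5 * q) × Wd (Fin n × Bool) k) ×
        (Fin (5 * q) × Wd (Fin n × Bool) k)), Sys P ∧
      ∀ i, (2 * (q : ℝ) - 1) * ((1 - δ) * (2 * (n : ℝ)) ^ k) ≤ (P i).card := by
  classical
  obtain ⟨C, m, hC, hm, hmm, hno⟩ := base_of_rs h
  have hg : ∀ i c, wt C i c = -1 → wt C i (gg m i c) = 1 := by
    intro i c hc
    obtain ⟨h1, _⟩ := wt_eq_neg C hc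
    show (if m i c.1 ∈ C i then (if true = true then (1 : ℤ) else -1) else 0) = 1
    rw [if_pos (hm i c.1 h1), if_pos rfl]
  have hgi : ∀ i c c', wt C i c = -1 → wt C i c' = -1 → gg m i c = gg m i c' → c = c' := by
    intro i c c' h1 h2 h3
    obtain ⟨a1, a2⟩ := wt_eq_neg C h1
    obtain ⟨b1, b2⟩ := wt_eq_neg C h2
    have h4 : m i c.1 = m i c'.1 := (Prod.mk.inj h3).1
    have h5 : c.1 = c'.1 := by rw [← hmm i c.1 a1, h4, hmm i c'.1 b1]
    exact Prod.ext h5 (a2.trans b2.symm)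
  have hno' : ∀ i j, i ≠ j → ∀ c, wt C j c = -1 →
      wt C i (gg m j c) - wt C i c = 0 ∨ wt C i (gg m j c) - wt C i c = 1 := by
    intro i j hij d hd
    obtain ⟨d1, d2⟩ := wt_eq_neg C hd
    have h5 := hno i j hij d.1 d1
    unfold wt gg
    simp only [d2]
    by_cases a1 : d.1 ∈ C i
    · have a2 : m j d.1 ∉ C i := fun a2 => h5 ⟨a1, a2⟩
      rw [if_pos a1, if_neg a2]
      norm_num
    · rw [if_neg a1]
      by_cases a2 : m j d.1 ∈ C i
      · rw [if_pos a2]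
        norm_num
      · rw [if_neg a2]
        norm_num
  have hex : ∀ i, ∃ P : Finset ((Fin (5 * q) × Wd (Fin n × Bool) k) ×
      (Fin (5 * q) × Wd (Fin n × Bool) k)),
      (∀ x y, (x, y) ∈ P → Up (wt C i) (gg m i) x y ∨ Dn (wt C i) (gg m i) x y) ∧
      P.card = (2 * q - 1) *
        (univ.filter fun w : Wd (Fin n × Bool) k => 1 ≤ ht (wt C i) w).card :=
    fun i => lev_card (wt C i) (gg m i) _ (fun w hw => (mem_filter.1 hw).2) hq
  choose P hP hPc using hex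
  refine ⟨P, sys_lev (wt C) (gg m) hg hgi hno' P hP, fun i => ?_⟩
  rw [hPc i]
  have h2q : (((2 * q - 1 : ℕ) : ℕ) : ℝ) = 2 * (q : ℝ) - 1 := by
    rw [Nat.cast_sub (by omega)]
    push_cast
    ring
  rw [Nat.cast_mul, h2q]
  have hq1 : (1 : ℝ) ≤ q := by exact_mod_cast hq
  exact mul_le_mul_of_nonneg_left (card_high C hC hr hk hδ hb i) (by linarith)

end Pool.Agent.RSA55
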