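import Mathlib

set_option autoImplicit false

/-!
# Nearly induced matchings (helper55, MP_c44c3f_co)
-/

namespace Pool.Agent.RSA55

/-- `A` is a matching: no edge of `A` is a loop, and distinct edges of `A` have no common end. -/
def IsMatchingSet {n : ℕ} (A : Finset (Sym2 (Fin n))) : Prop :=
  (∀ e ∈ A, ¬ e.IsDiag) ∧ ∀ e ∈ A, ∀ f ∈ A, ∀ x, x ∈ e → x ∈ f → e = f

/-- The number of edges of the sets `M j`, `i < j`, both ends of which are ends of edges of
`M i`. -/
noncomputable def laterEdges {n t : ℕ} (M : Fin t → Finset (Sym2 (Fin n))) (i : Fin t) : ℕ :=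
  Set.ncard {b : Sym2 (Fin n) | (∃ j, i < j ∧ b ∈ M j) ∧ ∀ x ∈ b, ∃ e ∈ M i, x ∈ e}

end Pool.Agent.RSA55
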