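import Pool.Agent.RSA55.Ord
import Pool.Agent.RSA55.NearDefs

set_option autoImplicit false

/-!
# From nearly induced matchings to ordered Ruzsa-Szemerédi graphs (helper55, MP_c44c3f_co)
-/

namespace Pool.Agent.RSA55

open Finset
open scoped Classical

/-- Greedy independent set for a symmetric relation of bounded degree. -/
theorem near_indep {α : Type} [Fintype α] (R : Finset α) (conf : α → α → Prop)
    (hsymm : ∀ a b, conf a b → conf b a) (D : ℕ)
    (hD : ∀ a ∈ R, (univ.filter (fun b => conf a b)).card ≤ D) :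
    ∃ A ⊆ R, (∀ a ∈ A, ∀ b ∈ A, a ≠ b → ¬ conf a b) ∧ R.card ≤ (D + 1) * A.card := by
  obtain ⟨A, hA, hmax⟩ := exists_max_image
    (R.powerset.filter (fun A => ∀ a ∈ A, ∀ b ∈ A, a ≠ b → ¬ conf a b)) card
    ⟨∅, by simp⟩
  rw [mem_filter, mem_powerset] at hA
  refine ⟨A, hA.1, hA.2, ?_⟩
  have hcov : R ⊆ A.biUnion (fun a => insert a (univ.filter (fun b => conf a b))) := by
    intro r hr
    rw [mem_biUnion]
    by_contra hcon
    push Not at hcon
    have hrA : r ∉ A := fun h => hcon r h (mem_insert_self _ _)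
    have hrc : ∀ a ∈ A, ¬ conf a r := by
      intro a ha h
      exact hcon a ha (mem_insert_of_mem (by rw [mem_filter]; exact ⟨mem_univ _, h⟩))
    have h1 : insert r A ∈ R.powerset.filter (fun A => ∀ a ∈ A, ∀ b ∈ A, a ≠ b → ¬ conf a b) := by
      rw [mem_filter, mem_powerset]
      refine ⟨insert_subset hr hA.1, ?_⟩
      intro a ha b hb hab
      rw [mem_insert] at ha hb
      rcases ha with rfl | ha <;> rcases hb with rfl | hb
      · exact absurd rfl hab
      · exact fun h => hrc b hb (hsymm _ _ h)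
      · exact hrc a ha
      · exact hA.2 a ha b hb hab
    have h2 := hmax _ h1
    rw [card_insert_of_notMem hrA] at h2
    omega
  calc R.card ≤ (A.biUnion (fun a => insert a (univ.filter (fun b => conf a b)))).card :=
        card_le_card hcov
    _ ≤ ∑ a ∈ A, (insert a (univ.filter (fun b => conf a b))).card := card_biUnion_le
    _ ≤ ∑ a ∈ A, (D + 1) := by
        apply sum_le_sum
        intro a ha
        exact (card_insert_le _ _).trans (Nat.succ_le_succ (hD a (hA.1 ha)))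
    _ = (D + 1) * A.card := by rw [sum_const, smul_eq_mul, mul_comm]

/-- A set of edges has at most twice as many orientations. -/
theorem card_orient {n : ℕ} (B : Finset (Sym2 (Fin n))) :
    ((univ : Finset (Fin n × Fin n)).filter fun p => s(p.1, p.2) ∈ B).card ≤ 2 * B.card := by
  refine card_le_mul_card_image_of_maps_to (f := fun p : Fin n × Fin n => s(p.1, p.2))
    (fun p hp => (mem_filter.1 hp).2) 2 ?_
  intro b _
  induction b using Sym2.ind with
  | _ u v =>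
    have : ((univ : Finset (Fin n × Fin n)).filter fun p => s(p.1, p.2) ∈ B).filter
        (fun p => s(p.1, p.2) = s(u, v)) ⊆ {(u, v), (v, u)} := by
      intro p hp
      rw [mem_filter] at hp
      rw [mem_insert, mem_singleton]
      rcases Sym2.eq_iff.1 hp.2 with ⟨h1, h2⟩ | ⟨h1, h2⟩
      · exact Or.inl (Prod.ext h1 h2)
      · exact Or.inr (Prod.ext h1 h2)
    exact (card_le_card this).trans card_le_two

/-- In a matching `A` whose ends span at most `C n` edges of `L` there is a large part whose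
different edges are not joined by edges of `L`. -/
theorem near_trim {n : ℕ} (A : Finset (Sym2 (Fin n))) (hA : IsMatchingSet A)
    (L : Sym2 (Fin n) → Prop) {c C : ℝ} (hc : 0 < c) (hcard : c * n ≤ A.card)
    (hC : ((Set.ncard {b : Sym2 (Fin n) | L b ∧ ∀ x ∈ b, ∃ e ∈ A, x ∈ e} : ℕ) : ℝ) ≤ C * n) :
    ∃ A' ⊆ A, c * n ≤ 2 * ((⌊4 * C / c⌋₊ : ℝ) + 2) * A'.card ∧
      ∀ e ∈ A', ∀ f ∈ A', e ≠ f → ∀ x ∈ e, ∀ y ∈ f, ¬ L s(x, y) := by
  obtain ⟨B, hB⟩ : ∃ B : Finset (Sym2 (Fin n)), B = univ.filter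
      fun b => L b ∧ ∀ x ∈ b, ∃ e ∈ A, x ∈ e := ⟨_, rfl⟩
  have hB' : ∀ b, b ∈ B ↔ L b ∧ ∀ x ∈ b, ∃ e ∈ A, x ∈ e := fun b => by rw [hB]; simp
  have hBc : (B.card : ℝ) ≤ C * n := by
    have : Set.ncard {b : Sym2 (Fin n) | L b ∧ ∀ x ∈ b, ∃ e ∈ A, x ∈ e} = B.card := by
      rw [← Set.ncard_coe_finset]
      congr 1
      ext b
      rw [mem_coe, hB']
      rfl
    rw [← this]
    exact hC
  obtain ⟨D, hD⟩ : ∃ D : ℕ, D = ⌊4 * C / c⌋₊ + 1 := ⟨_, rfl⟩
  obtain ⟨conf, hconf⟩ : ∃ conf : Sym2 (Fin n) → Sym2 (Fin n) → Prop,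
      conf = fun e f => e ∈ A ∧ f ∈ A ∧ e ≠ f ∧ ∃ x ∈ e, ∃ y ∈ f, L s(x, y) := ⟨_, rfl⟩
  have hsymm : ∀ a b, conf a b → conf b a := by
    rw [hconf]
    rintro a b ⟨h1, h2, h3, x, hx, y, hy, h4⟩
    exact ⟨h2, h1, h3.symm, y, hy, x, hx, by rw [Sym2.eq_swap]; exact h4⟩
  -- the number of ordered conflicts
  have hsum : ∑ e ∈ A, (univ.filter (fun f => conf e f)).card ≤ 2 * B.card := by
    have e1 : ∑ e ∈ A, (univ.filter (fun f => conf e f)).card =
        (A.sigma fun e => univ.filter (fun f => conf e f)).card := by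
      rw [card_sigma]
    rw [e1]
    refine le_trans ?_ (card_orient B)
    have hch : ∀ q : (_ : Sym2 (Fin n)) × Sym2 (Fin n), ∃ p : Fin n × Fin n,
        conf q.1 q.2 → p.1 ∈ q.1 ∧ p.2 ∈ q.2 ∧ L s(p.1, p.2) := by
      intro q
      by_cases hq : conf q.1 q.2
      · have hq' := hq
        rw [hconf] at hq'
        obtain ⟨_, _, _, x, hx, y, hy, h4⟩ := hq'
        exact ⟨(x, y), fun _ => ⟨hx, hy, h4⟩⟩
      · by_cases hn : Nonempty (Fin n)
        · obtain ⟨v⟩ := hn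
          exact ⟨(v, v), fun h0 => absurd h0 hq⟩
        · exfalso
          obtain ⟨a, b⟩ := q
          induction a using Sym2.ind with
          | _ u v => exact hn ⟨u⟩
    choose g hg using hch
    refine card_le_card_of_injOn g ?_ ?_
    · intro q hq
      obtain ⟨q1, q2⟩ := mem_sigma.1 (mem_coe.1 hq)
      have q3 := (mem_filter.1 q2).2
      obtain ⟨g1, g2, g3⟩ := hg q q3
      rw [hconf] at q3
      refine mem_coe.2 (mem_filter.2 ⟨mem_univ _, (hB' _).2 ⟨g3, ?_⟩⟩)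
      intro x hx
      rcases Sym2.mem_iff.1 hx with rfl | rfl
      · exact ⟨q.1, q3.1, g1⟩
      · exact ⟨q.2, q3.2.1, g2⟩
    · intro q hq q' hq' he
      obtain ⟨q1, q2⟩ := mem_sigma.1 (mem_coe.1 hq)
      obtain ⟨q1', q2'⟩ := mem_sigma.1 (mem_coe.1 hq')
      have q3 := (mem_filter.1 q2).2
      have q3' := (mem_filter.1 q2').2
      obtain ⟨g1, g2, _⟩ := hg q q3
      obtain ⟨g1', g2', _⟩ := hg q' q3'
      rw [hconf] at q3 q3'
      rw [← he] at g1' g2'
      obtain ⟨a, b⟩ := q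
      obtain ⟨a', b'⟩ := q'
      have h1 : a = a' := hA.2 _ q3.1 _ q3'.1 _ g1 g1'
      have h2 : b = b' := hA.2 _ q3.2.1 _ q3'.2.1 _ g2 g2'
      subst h1
      subst h2
      rfl
  -- the edges with few conflicts
  obtain ⟨R, hR⟩ : ∃ R : Finset (Sym2 (Fin n)), R = A.filter
      fun e => (univ.filter (fun f => conf e f)).card ≤ D := ⟨_, rfl⟩
  have hRA : R ⊆ A := by rw [hR]; exact filter_subset _ _
  have hRD : ∀ a ∈ R, (univ.filter (fun b => conf a b)).card ≤ D := by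
    intro a ha
    rw [hR] at ha
    exact (mem_filter.1 ha).2
  have hn0 : (0 : ℝ) ≤ n := Nat.cast_nonneg n
  have hCn : 0 ≤ C * n := le_trans (Nat.cast_nonneg _) hBc
  have hRc : c * n / 2 ≤ (R.card : ℝ) := by
    have h1 : (A.filter fun e => ¬ (univ.filter (fun f => conf e f)).card ≤ D).card * D ≤
        2 * B.card := by
      refine le_trans ?_ hsum
      rw [← smul_eq_mul, ← sum_const]
      refine le_trans ?_ (sum_le_sum_of_subset (filter_subset
        (fun e => ¬ (univ.filter (fun f => conf e f)).card ≤ D) A))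
      refine sum_le_sum fun e he => ?_
      exact (not_le.1 (mem_filter.1 he).2).le
    have h2 : (R.card : ℝ) +
        ((A.filter fun e => ¬ (univ.filter (fun f => conf e f)).card ≤ D).card : ℝ) =
        A.card := by
      rw [hR]
      exact_mod_cast Finset.card_filter_add_card_filter_not (s := A)
        (fun e => (univ.filter (fun f => conf e f)).card ≤ D)
    have h3 : 4 * C / c < D := by
      rw [hD]
      push_cast
      exact Nat.lt_floor_add_one _
    have h4 : 4 * C < D * c := (div_lt_iff₀ hc).1 h3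
    have h1' : ((A.filter fun e => ¬ (univ.filter (fun f => conf e f)).card ≤ D).card : ℝ) * D ≤
        2 * B.card := by exact_mod_cast h1
    have hD0 : (0 : ℝ) < D := by
      rw [hD]
      positivity
    obtain ⟨X, hX⟩ : ∃ X : ℝ, X =
      ((A.filter fun e => ¬ (univ.filter (fun f => conf e f)).card ≤ D).card : ℝ) := ⟨_, rfl⟩
    rw [← hX] at h1' h2
    have h5 : X * D ≤ c * n / 2 * D := by
      have h6 : 4 * C * n ≤ D * c * n := mul_le_mul_of_nonneg_right h4.le hn0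
      nlinarith
    have h7 : X ≤ c * n / 2 := le_of_mul_le_mul_right h5 hD0
    linarith
  obtain ⟨A', hA', hind, hcA⟩ := near_indep R conf hsymm D hRD
  refine ⟨A', hA'.trans hRA, ?_, ?_⟩
  · have h1 : (R.card : ℝ) ≤ (D + 1) * A'.card := by exact_mod_cast hcA
    have h2 : ((D : ℝ) + 1) = (⌊4 * C / c⌋₊ : ℝ) + 2 := by
      rw [hD]
      push_cast
      ring
    rw [h2] at h1
    nlinarith
  · intro e he f hf hef x hx y hy hL
    refine hind e he f hf hef ?_
    rw [hconf]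
    exact ⟨hRA (hA' he), hRA (hA' hf), hef, x, hx, y, hy, hL⟩

theorem near_ordered {n t : ℕ} (M : Fin t → Finset (Sym2 (Fin n)))
    (hM : ∀ i, IsMatchingSet (M i)) (hd : ∀ i j, i ≠ j → Disjoint (M i) (M j))
    {c C : ℝ} (hc : 0 < c) (hcard : ∀ i, c * n ≤ (M i).card)
    (hC : ∀ i, (laterEdges M i : ℝ) ≤ C * n) :
    ∃ (G : SimpleGraph (Fin n)) (r : ℕ),
      c / (2 * ((⌊4 * C / c⌋₊ : ℝ) + 2)) * n ≤ r ∧ IsOrderedRS G r t := by
  have h1 : ∀ i, ∃ A' ⊆ M i, c * n ≤ 2 * ((⌊4 * C / c⌋₊ : ℝ) + 2) * A'.card ∧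
      ∀ e ∈ A', ∀ f ∈ A', e ≠ f → ∀ x ∈ e, ∀ y ∈ f, ¬ ∃ j, i < j ∧ s(x, y) ∈ M j :=
    fun i => near_trim (M i) (hM i) (fun b => ∃ j, i < j ∧ b ∈ M j) hc (hcard i) (hC i)
  choose A hA1 hA2 hA3 using h1
  obtain ⟨κ, hκ⟩ : ∃ κ : ℝ, κ = 2 * ((⌊4 * C / c⌋₊ : ℝ) + 2) := ⟨_, rfl⟩
  have hκ0 : 0 < κ := by
    rw [hκ]
    positivity
  obtain ⟨r, hr⟩ : ∃ r : ℕ, r = ⌈c / κ * n⌉₊ := ⟨_, rfl⟩
  have h2 : ∀ i, r ≤ (A i).card := by
    intro i
    rw [hr, Nat.ceil_le]
    have := hA2 i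
    rw [← hκ] at this
    rw [div_mul_eq_mul_div, div_le_iff₀ hκ0]
    linarith
  have h3 : ∀ i, ∃ P ⊆ A i, P.card = r := fun i => exists_subset_card_eq (h2 i)
  choose P hP hPc using h3
  have hPM : ∀ i, P i ⊆ M i := fun i => (hP i).trans (hA1 i)
  refine ⟨SimpleGraph.fromEdgeSet {e | ∃ i, e ∈ P i}, r, ?_, P, hPc, ?_, ?_, ?_⟩
  · rw [← hκ, hr]
    exact Nat.le_ceil _
  · intro i j hij
    exact Finset.disjoint_of_subset_left (hPM i)
      (Finset.disjoint_of_subset_right (hPM j) (hd i j hij))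
  · intro e
    rw [SimpleGraph.edgeSet_fromEdgeSet]
    constructor
    · rintro ⟨h4, _⟩
      exact h4
    · rintro ⟨i, hi⟩
      exact ⟨⟨i, hi⟩, (hM i).1 e (hPM i hi)⟩
  · intro i e he f hf hef x hx y hy
    have heM := hPM i he
    have hfM := hPM i hf
    refine ⟨?_, ?_⟩
    · rintro rfl
      exact hef ((hM i).2 e heM f hfM x hx hy)
    · intro j hij hj
      have hjM := hPM j hj
      rcases eq_or_lt_of_le hij with h5 | h5
      · subst h5
        have g1 := (hM i).2 e heM _ hjM x hx (Sym2.mem_mk_left _ _)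
        have g2 := (hM i).2 f hfM _ hjM y hy (Sym2.mem_mk_right _ _)
        exact hef (g1.trans g2.symm)
      · exact hA3 i e (hP i he) f (hP i hf) hef x hx y hy ⟨j, h5, hjM⟩

/-- Amplification from nearly induced matchings. -/
theorem amplifyN (c C : ℝ) (hc : 0 < c) (c' : ℝ) (hc' : c' < 1 / 5) :
    ∃ k K : ℕ, ∀ (n t : ℕ) (M : Fin t → Finset (Sym2 (Fin n))), 1 ≤ n →
      (∀ i, IsMatchingSet (M i)) → (∀ i j, i ≠ j → Disjoint (M i) (M j)) →
      (∀ i, c * n ≤ (M i).card) → (∀ i, (laterEdges M i : ℝ) ≤ C * n) →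
      ∀ N : ℕ, K * n ^ k ≤ N →
        ∃ (G' : SimpleGraph (Fin N)) (r' : ℕ), c' * N ≤ r' ∧ IsRS G' r' t := by
  obtain ⟨k, K, hk⟩ := amplifyO (c / (2 * ((⌊4 * C / c⌋₊ : ℝ) + 2))) (by positivity) c' hc'
  refine ⟨k, K, fun n t M hn hM hd hcard hC N hN => ?_⟩
  obtain ⟨G, r, hr, hG⟩ := near_ordered M hM hd hc hcard hC
  exact hk n r t G hn hr hG N hN

end Pool.Agent.RSA55
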