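import Pool.Agent.RSA55.Final5

set_option autoImplicit false

/-!
# Ordered Ruzsa-Szemerédi graphs (helper55, MP_c44c3f_co)
-/

namespace Pool.Agent.RSA55

open Finset

/-- `G` is an ordered `(r,t)`-Ruzsa–Szemerédi graph: its edge set is the disjoint union of `t`
matchings `M 0, M 1, …`, each of size exactly `r`, and each `M i` is induced in the graph formed by
the `M j` with `i ≤ j`. -/
def IsOrderedRS {n : ℕ} (G : SimpleGraph (Fin n)) (r t : ℕ) : Prop :=
  ∃ M : Fin t → Finset (Sym2 (Fin n)),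
    (∀ i, (M i).card = r) ∧
    (∀ i j, i ≠ j → Disjoint (M i) (M j)) ∧
    (∀ e, e ∈ G.edgeSet ↔ ∃ i, e ∈ M i) ∧
    (∀ i, ∀ e ∈ M i, ∀ f ∈ M i, e ≠ f → ∀ x ∈ e, ∀ y ∈ f,
      x ≠ y ∧ ∀ j, i ≤ j → s(x, y) ∉ M j)

theorem card_pairs {n : ℕ} (M : Finset (Sym2 (Fin n))) (hM : ∀ e ∈ M, ¬ e.IsDiag) :
    2 * M.card ≤ ((univ : Finset (Fin n × Fin n)).filter fun p => s(p.1, p.2) ∈ M).card := by
  classical
  have hex : ∀ e : Sym2 (Fin n), ∃ p : Fin n × Fin n, s(p.1, p.2) = e := fun e => by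
    induction e using Sym2.ind with
    | _ a b => exact ⟨(a, b), rfl⟩
  choose o ho using hex
  have e1 : 2 * M.card = (M ×ˢ (univ : Finset Bool)).card := by
    rw [card_product, card_univ, Fintype.card_bool, mul_comm]
  rw [e1]
  refine card_le_card_of_injOn
    (fun q => if q.2 = true then o q.1 else ((o q.1).2, (o q.1).1)) ?_ ?_
  · intro q hq
    have h1 : q.1 ∈ M := (mem_product.1 (mem_coe.1 hq)).1
    refine mem_coe.2 (mem_filter.2 ⟨mem_univ _, ?_⟩)
    by_cases hb : q.2 = true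
    · simp only [hb, if_true]
      rw [ho]
      exact h1
    · simp only [hb, if_false, Bool.false_eq_true]
      rw [Sym2.eq_swap, ho]
      exact h1
  · rintro ⟨e, b⟩ hq ⟨e', b'⟩ hq' heq
    have h1 : e ∈ M := (mem_product.1 (mem_coe.1 hq)).1
    have hne : (o e).1 ≠ (o e).2 := by
      intro h0
      have h2 := hM e h1
      rw [← ho e, Sym2.mk_isDiag_iff] at h2
      exact h2 h0
    have key : ∀ (e : Sym2 (Fin n)) (b : Bool),
        s((if b = true then o e else ((o e).2, (o e).1)).1,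
          (if b = true then o e else ((o e).2, (o e).1)).2) = e := by
      intro e b
      cases b
      · simp only [Bool.false_eq_true, if_false]
        rw [Sym2.eq_swap, ho]
      · simp only [if_true]
        exact ho e
    have h3 : e = e' := by
      have h4 : s((if b = true then o e else ((o e).2, (o e).1)).1,
          (if b = true then o e else ((o e).2, (o e).1)).2) =
          s((if b' = true then o e' else ((o e').2, (o e').1)).1,
          (if b' = true then o e' else ((o e').2, (o e').1)).2) := by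
        have h5 : (if b = true then o e else ((o e).2, (o e).1)) =
            (if b' = true then o e' else ((o e').2, (o e').1)) := heq
        rw [h5]
      rw [key, key] at h4
      exact h4
    subst h3
    have h5 : (if b = true then o e else ((o e).2, (o e).1)) =
        (if b' = true then o e else ((o e).2, (o e).1)) := heq
    cases b <;> cases b'
    · rfl
    · simp only [Bool.false_eq_true, if_false, if_true] at h5
      exact absurd (congrArg Prod.snd h5) hne
    · simp only [Bool.false_eq_true, if_false, if_true] at h5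
      exact absurd (congrArg Prod.fst h5) hne
    · rfl

/-- The square of an ordered Ruzsa-Szemerédi graph, the second factor in the reversed order, is a
bipartite system with the same number of matchings. -/
theorem ord_sys {n r t : ℕ} {G : SimpleGraph (Fin n)} (h : IsOrderedRS G r t) :
    ∃ P : Fin t → Finset ((Fin n × Fin n) × (Fin n × Fin n)), Sys P ∧
      ∀ i, 4 * r ^ 2 ≤ (P i).card := by
  classical
  obtain ⟨M, hr, hd, he, hM⟩ := h
  have hnd : ∀ i, ∀ e ∈ M i, ¬ e.IsDiag := fun i e hei =>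
    G.not_isDiag_of_mem_edgeSet ((he e).2 ⟨i, hei⟩)
  have step : ∀ i j x y x' y', s(x, y) ∈ M i → s(x', y') ∈ M i → s(x, y') ∈ M j →
      j ≤ i ∧ (i = j → x = x' ∧ y = y') := by
    intro i j x y x' y' h1 h2 h3
    have n1 : x ≠ y := fun h0 => hnd i _ h1 (Sym2.mk_isDiag_iff.2 h0)
    have n3 : x ≠ y' := fun h0 => hnd j _ h3 (Sym2.mk_isDiag_iff.2 h0)
    by_cases hef : s(x, y) = s(x', y')
    · rcases Sym2.eq_iff.1 hef with ⟨e1, e2⟩ | ⟨e1, e2⟩
      · subst e1
        subst e2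
        have : i = j := by
          by_contra hij
          exact Finset.disjoint_left.1 (hd i j hij) h1 h3
        exact ⟨this.symm.le, fun _ => ⟨rfl, rfl⟩⟩
      · exact absurd e1 n3
    · have h4 := (hM i _ h1 _ h2 hef x (Sym2.mem_mk_left _ _) y' (Sym2.mem_mk_right _ _)).2 j
      have h5 : ¬ i ≤ j := fun h0 => h4 h0 h3
      exact ⟨(not_le.1 h5).le, fun h0 => absurd h0.le h5⟩
  obtain ⟨P, hP⟩ : ∃ P : Fin t → Finset ((Fin n × Fin n) × (Fin n × Fin n)),
      P = fun i => (univ : Finset ((Fin n × Fin n) × (Fin n × Fin n))).filter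
        fun p => s(p.1.1, p.2.1) ∈ M i ∧ s(p.1.2, p.2.2) ∈ M (Fin.rev i) := ⟨_, rfl⟩
  have hP' : ∀ i p, p ∈ P i ↔ s(p.1.1, p.2.1) ∈ M i ∧ s(p.1.2, p.2.2) ∈ M (Fin.rev i) := by
    intro i p
    rw [hP]
    simp
  refine ⟨P, ?_, ?_⟩
  · intro i j x y x' y' h1 h2 h3
    rw [hP'] at h1 h2 h3
    obtain ⟨a1, a2⟩ := h1
    obtain ⟨b1, b2⟩ := h2
    obtain ⟨c1, c2⟩ := h3
    have s1 := step i j _ _ _ _ a1 b1 c1
    have s2 := step (Fin.rev i) (Fin.rev j) _ _ _ _ a2 b2 c2
    have hij : i = j := le_antisymm (Fin.rev_le_rev.1 s2.1) s1.1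
    subst hij
    obtain ⟨u1, u2⟩ := s1.2 rfl
    obtain ⟨v1, v2⟩ := s2.2 rfl
    exact ⟨rfl, Prod.ext u1 v1, Prod.ext u2 v2⟩
  · intro i
    have d1 := card_pairs (M i) (hnd i)
    have d2 := card_pairs (M (Fin.rev i)) (hnd _)
    rw [hr] at d1 d2
    have e1 : (((univ : Finset (Fin n × Fin n)).filter fun p => s(p.1, p.2) ∈ M i) ×ˢ
        ((univ : Finset (Fin n × Fin n)).filter fun p => s(p.1, p.2) ∈ M (Fin.rev i))).card ≤
        (P i).card := by
      refine card_le_card_of_injOn (fun q => ((q.1.1, q.2.1), (q.1.2, q.2.2))) ?_ ?_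
      · intro q hq
        obtain ⟨q1, q2⟩ := mem_product.1 (mem_coe.1 hq)
        exact mem_coe.2 ((hP' i _).2 ⟨(mem_filter.1 q1).2, (mem_filter.1 q2).2⟩)
      · rintro ⟨⟨a, b⟩, ⟨c, d⟩⟩ _ ⟨⟨a', b'⟩, ⟨c', d'⟩⟩ _ hq
        simp only [Prod.mk.injEq] at hq
        obtain ⟨⟨x1, x2⟩, x3, x4⟩ := hq
        subst x1
        subst x2
        subst x3
        subst x4
        rfl
    rw [card_product] at e1
    refine le_trans (le_trans (le_of_eq ?_) (Nat.mul_le_mul d1 d2)) e1
    ring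

/-- Amplification from ordered Ruzsa-Szemerédi graphs. -/
theorem amplifyO (c : ℝ) (hc : 0 < c) (c' : ℝ) (hc' : c' < 1 / 5) :
    ∃ k K : ℕ, ∀ (n r t : ℕ) (G : SimpleGraph (Fin n)), 1 ≤ n → c * n ≤ r → IsOrderedRS G r t →
      ∀ N : ℕ, K * n ^ k ≤ N →
        ∃ (G' : SimpleGraph (Fin N)) (r' : ℕ), c' * N ≤ r' ∧ IsRS G' r' t := by
  obtain ⟨k, K, _, hk⟩ := amplify5 (2 * c ^ 2) (by positivity) c' hc'
  refine ⟨2 * k, K * 2 ^ k, fun n r t G hn hr hG N hN => ?_⟩
  obtain ⟨P, hP, hPc⟩ := ord_sys hG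
  obtain ⟨G2, hG2⟩ := hP.graph hPc (N := n * n + n * n) (by
    rw [Fintype.card_prod, Fintype.card_fin])
  refine hk (n * n + n * n) (4 * r ^ 2) t G2 (by nlinarith) ?_ hG2 N ?_
  · have h1 : (0 : ℝ) ≤ c * n := by positivity
    have h2 : (c * n) ^ 2 ≤ (r : ℝ) ^ 2 := pow_le_pow_left₀ h1 hr 2
    push_cast
    nlinarith
  · refine le_trans (le_of_eq ?_) hN
    have : n * n + n * n = 2 * n ^ 2 := by ring
    rw [this, mul_pow, ← pow_mul]
    ring

end Pool.Agent.RSA55
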