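import Mathlib

set_option autoImplicit false

/-!
# Words, their height, and the bracket matching (helper55, MP_c44c3f_co)
-/

namespace Pool.Agent.RSA55

open Finset

/-- Words of length `k` over the alphabet `Ω` (the last letter is the second component). -/
def Wd (Ω : Type) : ℕ → Type
  | 0 => Unit
  | k + 1 => Wd Ω k × Ω

instance instFintypeWd (Ω : Type) [Fintype Ω] : ∀ k, Fintype (Wd Ω k)
  | 0 => inferInstanceAs (Fintype Unit)
  | k + 1 => @instFintypeProd _ _ (instFintypeWd Ω k) _

variable {Ω : Type}

/-- The height of a word: a letter of weight `1` lowers it by one (not below `0`), a letter of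
weight `-1` raises it by one. -/
def ht (wt : Ω → ℤ) : ∀ {k : ℕ}, Wd Ω k → ℕ
  | 0, _ => 0
  | _ + 1, (w, c) => if wt c = 1 then ht wt w - 1 else if wt c = -1 then ht wt w + 1 else ht wt w

/-- The bracket matching: change the letter of weight `-1` read at the last time the height
was `0`. -/
def fl (wt : Ω → ℤ) (g : Ω → Ω) : ∀ {k : ℕ}, Wd Ω k → Wd Ω k
  | 0, _ => ()
  | _ + 1, (w, c) => if wt c = -1 ∧ ht wt w = 0 then (w, g c) else (fl wt g w, c)

/-- The total weight of a word. -/
def tot (ψ : Ω → ℤ) : ∀ {k : ℕ}, Wd Ω k → ℤ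
  | 0, _ => 0
  | _ + 1, (w, c) => tot ψ w + ψ c

theorem ht_fl (wt : Ω → ℤ) (g : Ω → Ω) (hg : ∀ c, wt c = -1 → wt (g c) = 1) :
    ∀ {k : ℕ} (w : Wd Ω k), 1 ≤ ht wt w → ht wt (fl wt g w) = ht wt w - 1
  | 0, _, h => by simp [ht] at h
  | k + 1, (w, c), h => by
    by_cases hc : wt c = -1 ∧ ht wt w = 0
    · obtain ⟨h1, h2⟩ := hc
      simp only [fl, ht, h1, h2, hg c h1, and_self, if_true]
      norm_num
    · have ih := ht_fl wt g hg w
      simp only [fl, if_neg hc]
      simp only [ht] at h ⊢
      by_cases h1 : wt c = 1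
      · simp only [h1, if_true] at h ⊢
        rw [ih (by omega)]
      · simp only [h1, if_false] at h ⊢
        by_cases h2 : wt c = -1
        · simp only [h2, if_true] at h ⊢
          have h3 : ht wt w ≠ 0 := fun h0 => hc ⟨h2, h0⟩
          rw [ih (by omega)]
          omega
        · simp only [h2, if_false] at h ⊢
          exact ih h

theorem fl_inj (wt : Ω → ℤ) (g : Ω → Ω) (hg : ∀ c, wt c = -1 → wt (g c) = 1)
    (hgi : ∀ c c', wt c = -1 → wt c' = -1 → g c = g c' → c = c') :
    ∀ {k : ℕ} (w w' : Wd Ω k), 1 ≤ ht wt w → 1 ≤ ht wt w' → fl wt g w = fl wt g w' → w = w'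
  | 0, _, _, _, _, _ => rfl
  | k + 1, (w, c), (w', c'), h, h', he => by
    by_cases hc : wt c = -1 ∧ ht wt w = 0
    · by_cases hc' : wt c' = -1 ∧ ht wt w' = 0
      · simp only [fl, if_pos hc, if_pos hc'] at he
        have e1 : w = w' := congrArg Prod.fst he
        have e2 : g c = g c' := congrArg Prod.snd he
        rw [e1, hgi c c' hc.1 hc'.1 e2]
      · simp only [fl, if_pos hc, if_neg hc'] at he
        exfalso
        have e1 : w = fl wt g w' := congrArg Prod.fst he
        have e2 : g c = c' := congrArg Prod.snd he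
        have h1 : wt c' = 1 := e2 ▸ hg c hc.1
        simp only [ht, h1, if_true] at h'
        have h2 := ht_fl wt g hg w' (by omega)
        rw [← e1, hc.2] at h2
        omega
    · by_cases hc' : wt c' = -1 ∧ ht wt w' = 0
      · simp only [fl, if_neg hc, if_pos hc'] at he
        exfalso
        have e1 : fl wt g w = w' := congrArg Prod.fst he
        have e2 : c = g c' := congrArg Prod.snd he
        have h1 : wt c = 1 := e2 ▸ hg c' hc'.1
        simp only [ht, h1, if_true] at h
        have h2 := ht_fl wt g hg w (by omega)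
        rw [e1, hc'.2] at h2
        omega
      · simp only [fl, if_neg hc, if_neg hc'] at he
        have e1 : fl wt g w = fl wt g w' := congrArg Prod.fst he
        have e2 : c = c' := congrArg Prod.snd he
        subst e2
        have key : ∀ u : Wd Ω k, ¬ (wt c = -1 ∧ ht wt u = 0) →
            1 ≤ ht (k := k + 1) wt (u, c) → 1 ≤ ht wt u := by
          intro u hu h3
          simp only [ht] at h3
          by_cases h1 : wt c = 1
          · simp only [h1, if_true] at h3
            omega
          · simp only [h1, if_false] at h3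
            by_cases h2 : wt c = -1
            · have h4 : ht wt u ≠ 0 := fun h0 => hu ⟨h2, h0⟩
              omega
            · simp only [h2, if_false] at h3
              exact h3
        rw [fl_inj wt g hg hgi w w' (key w hc h) (key w' hc' h') e1]

theorem tot_fl (wt : Ω → ℤ) (g : Ω → Ω) (ψ : Ω → ℤ) :
    ∀ {k : ℕ} (w : Wd Ω k), 1 ≤ ht wt w →
      ∃ c, wt c = -1 ∧ tot ψ (fl wt g w) = tot ψ w + (ψ (g c) - ψ c)
  | 0, _, h => by simp [ht] at h
  | k + 1, (w, c), h => by
    by_cases hc : wt c = -1 ∧ ht wt w = 0
    · refine ⟨c, hc.1, ?_⟩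
      simp only [fl, if_pos hc, tot]
      ring
    · have h3 : 1 ≤ ht wt w := by
        simp only [ht] at h
        by_cases h1 : wt c = 1
        · simp only [h1, if_true] at h
          omega
        · simp only [h1, if_false] at h
          by_cases h2 : wt c = -1
          · have h4 : ht wt w ≠ 0 := fun h0 => hc ⟨h2, h0⟩
            omega
          · simp only [h2, if_false] at h
            exact h
      obtain ⟨c', h1, h2⟩ := tot_fl wt g ψ w h3
      refine ⟨c', h1, ?_⟩
      simp only [fl, if_neg hc, tot, h2]
      ring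

end Pool.Agent.RSA55
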